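import Mathlib

set_option autoImplicit false
open Set Filter Metric Complex Topology ComplexConjugate

namespace Pool.Agent.H.MP_cf5e8f_an

abbrev D : Set ℂ := closedBall 0 1

noncomputable def rr (T : ℝ) : ℝ := 1 - Real.exp (-T)
noncomputable def σ (T : ℝ) (w : ℂ) : ℂ := -log (1 - rr T * w) / T
noncomputable def σd (T : ℝ) (w : ℂ) : ℂ := rr T / (1 - rr T * w) / T

lemma rr0 {T : ℝ} (hT : 0 < T) : 0 < rr T := sub_pos.2 (Real.exp_lt_one_iff.2 (by linarith))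
lemma rr1 (T : ℝ) : rr T < 1 := sub_lt_self _ (Real.exp_pos _)

lemma rr_lim : Tendsto rr atTop (𝓝 1) := by
  unfold rr
  simpa using Real.tendsto_exp_neg_atTop_nhds_zero.const_sub 1

section
variable {T : ℝ} (hT : 0 < T) {w : ℂ} (hw : ‖w‖ ≤ 1)
include hT hw

lemma re_ge : Real.exp (-T) ≤ (1 - rr T * w).re := by
  have := (re_le_norm w).trans hw
  have h := rr0 hT
  rw [sub_re, one_re, re_ofReal_mul]
  rw [rr] at h ⊢
  nlinarith

lemma slit : 1 - rr T * w ∈ slitPlane := Or.inl ((Real.exp_pos _).trans_le (re_ge hT hw))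

lemma σ_der : HasDerivAt (σ T) (σd T w) w :=
  ((((hasDerivAt_id' w).const_mul (rr T : ℂ)).const_sub 1).clog (slit hT hw)).neg.div_const (T : ℂ)
    |>.congr_deriv (by rw [σd]; ring)

lemma σ_an : AnalyticAt ℂ (σ T) w := by
  unfold σ
  exact (AnalyticAt.clog (f := fun w => 1 - rr T * w) (by fun_prop) (slit hT hw)).neg.div_const

lemma σd_re : 0 ≤ (σd T w).re := by
  rw [σd, div_ofReal_re, div_eq_mul_inv (rr T : ℂ), re_ofReal_mul, inv_re]
  have := rr0 hT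
  have := (Real.exp_pos _).trans_le (re_ge hT hw)
  have := normSq_nonneg (1 - rr T * w)
  positivity

lemma σ_near : ∃ s ∈ Icc (0 : ℝ) 1, ‖σ T w - s‖ ≤ 5 / T := by
  have a1 := (re_ge hT hw).trans (re_le_norm _)
  have a2 : ‖1 - rr T * w‖ ≤ 2 := (norm_sub_le _ _).trans (by
    rw [norm_one, norm_mul, norm_real, Real.norm_of_nonneg (rr0 hT).le]
    nlinarith [rr0 hT, rr1 T])
  have a3 := Real.log_le_log (Real.exp_pos _) a1
  have a4 := Real.log_le_sub_one_of_pos ((Real.exp_pos _).trans_le a1)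
  rw [Real.log_exp] at a3
  have b1 : (σ T w).re ≤ 1 := by rw [σ, div_ofReal_re, neg_re, log_re, div_le_one hT]; linarith
  have b2 : -1 / T ≤ (σ T w).re := by
    rw [σ, div_ofReal_re, neg_re, log_re]
    exact div_le_div_of_nonneg_right (by linarith) hT.le
  have b3 : |(σ T w).im| ≤ 4 / T := by
    rw [σ, div_ofReal_im, neg_im, log_im, abs_div, abs_neg, abs_of_pos hT]
    exact div_le_div_of_nonneg_right ((abs_arg_le_pi _).trans Real.pi_le_four) hT.le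
  refine ⟨max 0 (σ T w).re, ⟨le_max_left _ _, max_le zero_le_one b1⟩,
    (norm_le_abs_re_add_abs_im _).trans ?_⟩
  rw [sub_re, sub_im, ofReal_re, ofReal_im, sub_zero, show 5 / T = 1 / T + 4 / T by ring]
  refine add_le_add ?_ b3
  have : 0 < 1 / T := by positivity
  rw [neg_div] at b2
  rcases le_total 0 (σ T w).re with h | h
  · simp [h, hT.le]
  · rw [max_eq_left h, sub_zero, abs_of_nonpos h]; linarith

omit hw in
lemma σ_one : σ T 1 = 1 := by
  have : (T : ℂ) ≠ 0 := ofReal_ne_zero.2 hT.ne'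
  rw [σ, mul_one, show (1 : ℂ) - rr T = (Real.exp (-T) : ℝ) by rw [rr]; push_cast; ring,
    ← ofReal_log (Real.exp_pos _).le, Real.log_exp]
  push_cast
  field_simp

lemma σ_tip {δ : ℝ} (δ0 : 0 < δ) (h1 : ‖1 - w‖ ≤ δ) (h2 : -(T / 2) ≤ Real.log (rr T * δ)) :
    0 ≤ (1 - σ T w).re ∧ ‖1 - w‖ ≤ 4 * δ * ‖1 - σ T w‖ := by
  have e0 := Real.exp_pos (-T)
  have r0 := rr0 hT
  have Tn : (T : ℂ) ≠ 0 := ofReal_ne_zero.2 hT.ne'
  obtain ⟨ξ, hξ⟩ : ∃ ξ : ℂ, ξ = (rr T / Real.exp (-T) : ℝ) * (1 - w) := ⟨_, rfl⟩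
  have a0 : 0 ≤ ξ.re := by
    rw [hξ, re_ofReal_mul, sub_re, one_re]
    exact mul_nonneg (by positivity) (sub_nonneg.2 ((re_le_norm w).trans hw))
  have a1 : 1 ≤ ‖1 + ξ‖ := le_trans (by simpa using a0) (re_le_norm _)
  have a2 : 1 + ξ ≠ 0 := norm_pos_iff.1 (by linarith)
  have a3 : 1 - σ T w = log (1 + ξ) / T := by
    have : (Real.exp (-T) : ℂ) ≠ 0 := ofReal_ne_zero.2 e0.ne'
    rw [σ, show 1 - rr T * w = (Real.exp (-T) : ℝ) * (1 + ξ) by
      rw [hξ, ofReal_div, mul_add, ← mul_assoc, mul_div_cancel₀ _ this, rr]; push_cast; ring,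
      log_ofReal_mul e0 a2, Real.log_exp]
    push_cast
    field_simp
    ring
  refine ⟨by rw [a3, div_ofReal_re, log_re]; exact div_nonneg (Real.log_nonneg a1) hT.le, ?_⟩
  have b1 := norm_exp_sub_sum_le_norm_mul_exp (log (1 + ξ)) 1
  rw [exp_log a2] at b1
  simp only [Finset.range_one, Finset.sum_singleton, pow_zero, Nat.factorial_zero, Nat.cast_one,
    div_one, add_sub_cancel_left, pow_one] at b1
  obtain ⟨A, hA⟩ : ∃ A, A = ‖log (1 + ξ)‖ := ⟨_, rfl⟩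
  have A0 : 0 ≤ A := hA ▸ norm_nonneg _
  rw [a3, norm_div, ← hA, norm_real, Real.norm_of_nonneg hT.le]
  rw [← hA] at b1
  have b2 : 1 + ‖ξ‖ ≤ Real.exp (2 * A) := by
    rw [two_mul, Real.exp_add]
    nlinarith [Real.add_one_le_exp A]
  have b3 := rpow_one_add_le_one_add_mul_self (s := rr T / Real.exp (-T) * δ) (p := ‖1 - w‖ / δ)
    (le_trans (by norm_num) (by positivity : (0 : ℝ) ≤ _)) (by positivity) ((div_le_one δ0).2 h1)
  have b4 : ‖1 - w‖ / δ * (rr T / Real.exp (-T) * δ) = ‖ξ‖ := by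
    rw [hξ, norm_mul, norm_real, Real.norm_of_nonneg (by positivity)]; field_simp
  have b5 := Real.log_le_log (by positivity) (b3.trans (b4 ▸ b2))
  rw [Real.log_rpow (by positivity), Real.log_exp] at b5
  have b6 : T / 2 ≤ Real.log (1 + rr T / Real.exp (-T) * δ) := by
    refine le_trans ?_ (Real.log_le_log (x := rr T * δ / Real.exp (-T)) (by positivity)
      (by rw [div_mul_eq_mul_div]; linarith))
    rw [Real.log_div (by positivity) e0.ne', Real.log_exp]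
    linarith
  have b7 := (mul_le_mul_of_nonneg_left b6 (by positivity : 0 ≤ ‖1 - w‖ / δ)).trans b5
  rw [div_mul_eq_mul_div, div_le_iff₀ δ0] at b7
  rw [← mul_div_assoc, le_div_iff₀ hT]
  linarith

end

lemma σ_far {X : Type*} {l : Filter X} {T : X → ℝ} {w : X → ℂ} {a : ℂ} (hT : Tendsto T l atTop)
    (hw : Tendsto w l (𝓝 a)) (a1 : ‖a‖ ≤ 1) (a2 : a ≠ 1) :
    Tendsto (fun x => σ (T x) (w x)) l (𝓝 0) ∧ Tendsto (fun x => σd (T x) (w x)) l (𝓝 0) := by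
  have r : Tendsto (fun x => (rr (T x) : ℂ)) l (𝓝 1) :=
    (continuous_ofReal.tendsto 1).comp (rr_lim.comp hT)
  have i : Tendsto (fun x => (T x : ℂ)⁻¹) l (𝓝 0) := by
    simpa [Function.comp_def] using
      (continuous_ofReal.tendsto 0).comp (tendsto_inv_atTop_zero.comp hT)
  have s : 1 - 1 * a ∈ slitPlane := by
    by_contra h
    rw [mem_slitPlane_iff, not_or, not_lt, not_not] at h
    simp only [one_mul, sub_re, one_re, sub_im, one_im, zero_sub, neg_eq_zero] at h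
    exact a2 (Complex.ext (le_antisymm ((re_le_norm a).trans a1) (by simpa using h.1)) h.2)
  have t := (r.mul hw).const_sub 1
  exact ⟨by simpa [σ, div_eq_mul_inv] using (t.clog s).neg.mul i,
    by simpa [σd, div_eq_mul_inv] using (r.div t (slitPlane_ne_zero s)).mul i⟩

lemma nw {S : Set ℂ} (hS : Convex ℝ S) {G G' : ℂ → ℂ} {l : ℂ} (hd : ∀ z ∈ S, HasDerivAt G (G' z) z)
    (hp : ∀ z ∈ S, 0 < (G' z * l).re) : InjOn G S := by
  intro z hz w hw e
  by_contra ne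
  have m : ∀ t ∈ Icc (0 : ℝ) 1, w + t * (z - w) ∈ S := fun t ht => by
    simpa using hS.add_smul_sub_mem hw hz ht
  have d : ∀ t ∈ Icc (0 : ℝ) 1, HasDerivAt (fun t : ℝ => (G (w + t * (z - w)) * (l / (z - w))).re)
      (G' (w + t * (z - w)) * (1 * (z - w)) * (l / (z - w))).re t := fun t ht =>
    (((hd _ (m t ht)).comp (t : ℂ) (((hasDerivAt_id' (t : ℂ)).mul_const _).const_add w)).mul_const
      _).real_of_complex
  obtain ⟨c, hc, h⟩ := exists_hasDerivAt_eq_zero zero_lt_one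
    (fun t ht => (d t ht).continuousAt.continuousWithinAt) (by simp [e])
    fun t ht => d t (Ioo_subset_Icc_self ht)
  rw [one_mul, mul_assoc, mul_div_cancel₀ _ (sub_ne_zero.2 ne)] at h
  exact (hp _ (m c (Ioo_subset_Icc_self hc))).ne' h

lemma cpt {X B : Type*} [TopologicalSpace X] {K : Set X} (hK : IsCompact K) {l : Filter B}
    {p : B → X → Prop} (h : ∀ x ∈ K, ∀ᶠ q in l ×ˢ 𝓝[K] x, p q.1 q.2) :
    ∀ᶠ b in l, ∀ x ∈ K, p b x :=
  hK.induction_on (p := fun S => ∀ᶠ b in l, ∀ x ∈ S, p b x) (by simp)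
    (fun _ _ hst h => h.mono fun _ hn x hx => hn x (hst hx))
    (fun _ _ hs ht => (hs.and ht).mono fun _ hn x hx => hx.elim (hn.1 x) (hn.2 x))
    fun x hx => by
      obtain ⟨pa, h1, pb, h2, h3⟩ := eventually_prod_iff.1 (h x hx)
      exact ⟨_, h2, h1.mono fun b hb y hy => h3 (x := b) (y := y) hb hy⟩

lemma loc {B : Type*} {l : Filter B} {p : B → ℂ → Prop} {x : ℂ}
    (h : ∀ᶠ q in l ×ˢ 𝓝[D] x, p q.1 q.2) : ∃ δ > 0, ∀ᶠ b in l, ∀ z ∈ ball x δ ∩ D, p b z := by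
  obtain ⟨pa, h1, pb, h2, h3⟩ := eventually_prod_iff.1 h
  obtain ⟨δ, h4, h5⟩ := mem_nhdsWithin_iff.1 h2
  exact ⟨δ, h4, h1.mono fun b hb y hy => h3 (x := b) (y := y) hb (h5 hy)⟩

lemma near {B : Type*} {l : Filter B} {x : ℂ} {δ : ℝ} (h : 0 < δ) :
    ∀ᶠ q in l ×ˢ 𝓝[D] x, q.2 ∈ ball x δ ∩ D :=
  tendsto_snd.eventually (inter_mem (mem_nhdsWithin_of_mem_nhds (ball_mem_nhds x h))
    self_mem_nhdsWithin)

lemma gap {p q d e : ℂ} (h : ∀ s ∈ Icc (0 : ℝ) 1, ∀ t ∈ Icc (0 : ℝ) 1, p + s * d ≠ q + t * e) :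
    ∃ ε > 0, ∀ s ∈ Icc (0 : ℝ) 1, ∀ t ∈ Icc (0 : ℝ) 1, ε ≤ ‖p + s * d - (q + t * e)‖ := by
  obtain ⟨x, hx, hm⟩ := (isCompact_Icc.prod isCompact_Icc).exists_isMinOn
    (f := fun x : ℝ × ℝ => ‖p + x.1 * d - (q + x.2 * e)‖)
    ⟨(0, 0), left_mem_Icc.2 zero_le_one, left_mem_Icc.2 zero_le_one⟩ (by fun_prop)
  exact ⟨_, norm_pos_iff.2 (sub_ne_zero.2 (h _ hx.1 _ hx.2)),
    fun s hs t ht => hm (a := (s, t)) ⟨hs, ht⟩⟩

lemma alg {s α : ℝ} {e d A E : ℂ} (s0 : 0 ≤ s) (α0 : 0 < α) (h1 : α ≤ (e * conj d).re)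
    (h2 : 0 ≤ A.re) (h : s * e = E - d * A) : ‖d‖ * ‖A‖ ≤ ‖E‖ * (1 + ‖d‖ * ‖e‖ / α) := by
  have a1 : s * (e * conj d).re = (E * conj d).re - ‖d‖ ^ 2 * A.re := by
    rw [← re_ofReal_mul, ← re_ofReal_mul, ← sub_re, ← mul_assoc, h, ofReal_pow, ← mul_conj']
    congr 1
    ring
  have a2 := re_le_norm (E * conj d)
  rw [norm_mul, RCLike.norm_conj] at a2
  have a3 : s ≤ ‖E‖ * ‖d‖ / α := by
    rw [le_div_iff₀ α0]
    nlinarith [mul_nonneg (sq_nonneg ‖d‖) h2]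
  have a4 := norm_sub_le E (s * e)
  rw [show E - s * e = d * A by rw [h]; ring, norm_mul, norm_mul, norm_real,
    Real.norm_of_nonneg s0] at a4
  refine a4.trans ((add_le_add le_rfl (mul_le_mul_of_nonneg_right a3 (norm_nonneg e))).trans_eq ?_)
  ring

end Pool.Agent.H.MP_cf5e8f_an
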