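import Pool.Agent.H.MP_cf5e8f_an.A

set_option autoImplicit false
open Set Filter Metric Complex Topology ComplexConjugate

namespace Pool.Agent.H.MP_cf5e8f_an

structure Good (g : ℂ → ℂ) : Prop where
  an : AnalyticOnNhd ℂ g D
  inj : InjOn g D
  nz : ∀ z ∈ D, deriv g z ≠ 0

def Tr (g : ℂ → ℂ) (x e : ℂ) : Prop := 0 < (e * conj (deriv g x * x)).re
def Av (g : ℂ → ℂ) (x e : ℂ) : Prop := ∀ z ∈ D, ∀ s ∈ Ioc (0 : ℝ) 1, g z ≠ g x + s * e

variable {ι : Type} [Fintype ι]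

noncomputable def G (g : ℂ → ℂ) (ζ d : ι → ℂ) (T : ℝ) (z : ℂ) : ℂ :=
  g z + ∑ i, d i * σ T (conj (ζ i) * z)

lemma cz {x z : ℂ} (hx : ‖x‖ ≤ 1) (hz : z ∈ D) : ‖conj x * z‖ ≤ 1 := by
  rw [norm_mul, RCLike.norm_conj]
  exact mul_le_one₀ hx (norm_nonneg _) (mem_closedBall_zero_iff.1 hz)

lemma cc {x : ℂ} (hx : ‖x‖ = 1) : conj x * x = 1 := by rw [mul_comm, mul_conj', hx]; simp

lemma decomp {g : ℂ → ℂ} {ζ d : ι → ℂ} (hg : Good g) (h1 : ∀ i, ‖ζ i‖ = 1)
    (hi : Function.Injective ζ) {x : ℂ} (hx : x ∈ D) :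
    ∃ (e : ℂ) (R R' : ℝ → ℂ → ℂ), ((e = 0 ∧ ∀ i, ζ i ≠ x) ∨ ∃ i, ζ i = x ∧ e = d i) ∧
      (∀ T z, G g ζ d T z = R T z + e * σ T (conj x * z)) ∧
      (∀ T > 0, ∀ z ∈ D, HasDerivAt (R T) (R' T z) z) ∧
      Tendsto (fun q : ℝ × ℂ => R q.1 q.2) (atTop ×ˢ 𝓝[D] x) (𝓝 (g x)) ∧
      Tendsto (fun q : ℝ × ℂ => R' q.1 q.2) (atTop ×ˢ 𝓝[D] x) (𝓝 (deriv g x)) := by
  classical
  have t2 : Tendsto (fun q : ℝ × ℂ => q.2) (atTop ×ˢ 𝓝[D] x) (𝓝 x) :=
    tendsto_snd.mono_right nhdsWithin_le_nhds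
  have f := fun i (h : i ∈ Finset.univ.filter fun i => ¬ ζ i = x) =>
    σ_far (l := atTop ×ˢ 𝓝[D] x) tendsto_fst (t2.const_mul (conj (ζ i))) (cz (h1 i).le hx)
      fun e => (Finset.mem_filter.1 h).2 (by linear_combination x * cc (h1 i) - ζ i * e)
  refine ⟨∑ i with ζ i = x, d i, fun T z => g z + ∑ i with ¬ ζ i = x, d i * σ T (conj (ζ i) * z),
    fun T z => deriv g z + ∑ i with ¬ ζ i = x, d i * (σd T (conj (ζ i) * z) * (conj (ζ i) * 1)),
    ?_, fun T z => ?_, fun T hT z hz => ?_, ?_, ?_⟩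
  · by_cases h : ∃ i, ζ i = x
    · obtain ⟨i, rfl⟩ := h
      exact Or.inr ⟨i, rfl, by simp [hi.eq_iff, Finset.sum_filter]⟩
    · rw [not_exists] at h
      exact Or.inl ⟨by simp [h], h⟩
  · rw [G, ← Finset.sum_filter_add_sum_filter_not _ (fun i => ζ i = x), Finset.sum_mul,
      Finset.sum_congr rfl fun i h => by rw [(Finset.mem_filter.1 h).2]]
    ring
  · exact (hg.an z hz).differentiableAt.hasDerivAt.fun_add (HasDerivAt.fun_sum fun i _ =>
      ((σ_der hT (cz (h1 i).le hz)).comp z ((hasDerivAt_id' z).const_mul _)).const_mul _)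
  · simpa using ((hg.an x hx).continuousAt.tendsto.comp t2).add
      (tendsto_finsetSum _ fun i h => (f i h).1.const_mul (d i))
  · simpa using ((hg.an x hx).deriv.continuousAt.tendsto.comp t2).add
      (tendsto_finsetSum _ fun i h => ((f i h).2.mul_const (conj (ζ i))).const_mul (d i))

lemma approx {g : ℂ → ℂ} {x e : ℂ} (hx : x ∈ D) {F R : ℝ → ℂ → ℂ}
    (h1 : ∀ T z, F T z = R T z + e * σ T (conj x * z))
    (h2 : Tendsto (fun q : ℝ × ℂ => R q.1 q.2) (atTop ×ˢ 𝓝[D] x) (𝓝 (g x))) {ε : ℝ} (hε : 0 < ε) :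
    ∀ᶠ q : ℝ × ℂ in atTop ×ˢ 𝓝[D] x, ∃ s ∈ Icc (0 : ℝ) 1, ‖F q.1 q.2 - (g x + s * e)‖ < ε := by
  have t : Tendsto (fun q : ℝ × ℂ => ‖R q.1 q.2 - g x‖ + ‖e‖ * (5 / q.1)) (atTop ×ˢ 𝓝[D] x)
      (𝓝 0) := by
    simpa using (tendsto_iff_norm_sub_tendsto_zero.1 h2).add
      (((tendsto_const_nhds (x := (5 : ℝ))).div_atTop tendsto_fst).const_mul ‖e‖)
  filter_upwards [t.eventually (gt_mem_nhds hε), tendsto_fst.eventually (eventually_gt_atTop 0),
    near (x := x) one_pos] with q a1 a2 a3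
  obtain ⟨s, hs, h⟩ := σ_near a2 (cz (mem_closedBall_zero_iff.1 hx) a3.2)
  refine ⟨s, hs, lt_of_le_of_lt ?_ a1⟩
  rw [h1, add_sub_add_comm, ← mul_comm e, ← mul_sub]
  refine (norm_add_le _ _).trans ?_
  rw [norm_mul]
  gcongr

theorem spike {g : ℂ → ℂ} {ζ d : ι → ℂ} (hg : Good g) (h1 : ∀ i, ‖ζ i‖ = 1)
    (ht : ∀ i, Tr g (ζ i) (d i)) (ha : ∀ i, Av g (ζ i) (d i))
    (hs : ∀ i j, i ≠ j → ∀ s ∈ Icc (0 : ℝ) 1, ∀ t ∈ Icc (0 : ℝ) 1,
      g (ζ i) + s * d i ≠ g (ζ j) + t * d j)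
    {κ : Type} [Finite κ] {e : ι → κ → ℂ} (he : ∀ i k, 0 < (e i k * conj (d i)).re)
    (h2 : ∀ i k, ∀ s ∈ Icc (0 : ℝ) 1, ∀ z ∈ D, g z ≠ g (ζ i) + d i + s * e i k)
    (h3 : ∀ i k, ∀ s ∈ Icc (0 : ℝ) 1, ∀ j ≠ i, ∀ t ∈ Icc (0 : ℝ) 1,
      g (ζ j) + t * d j ≠ g (ζ i) + d i + s * e i k) {ε : ℝ} (hε : 0 < ε) :
    ∀ᶠ T in atTop, Good (G g ζ d T) ∧
      (∀ i k, Tr (G g ζ d T) (ζ i) (e i k) ∧ Av (G g ζ d T) (ζ i) (e i k)) ∧
      (∀ i, ‖G g ζ d T (ζ i) - (g (ζ i) + d i)‖ < ε) ∧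
      ∀ z ∈ D, (∃ y ∈ D, ‖G g ζ d T z - g y‖ < ε) ∨
        ∃ i, ∃ s ∈ Icc (0 : ℝ) 1, ‖G g ζ d T z - (g (ζ i) + s * d i)‖ < ε := by
  have z0 : (0 : ℝ) ∈ Icc (0 : ℝ) 1 := left_mem_Icc.2 zero_le_one
  have hi : Function.Injective ζ := fun i j e => by
    by_contra c
    exact hs i j c 0 z0 0 z0 (by simp [e])
  have mD : ∀ i, ζ i ∈ D := fun i => mem_closedBall_zero_iff.2 (h1 i).le
  choose! E R R' k1 k2 k3 k4 k5 using fun x => decomp (d := d) hg h1 hi (x := x)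
  have Ei : ∀ i, E (ζ i) = d i := fun i => by
    rcases k1 _ (mD i) with h | ⟨j, h, e⟩
    · exact absurd rfl (h.2 i)
    · rw [e, hi h]
  have der : ∀ x ∈ D, ∀ T > 0, ∀ z ∈ D, HasDerivAt (G g ζ d T)
      (R' x T z + E x * (σd T (conj x * z) * (conj x * 1))) z := fun x hx T hT z hz => by
    rw [funext (k2 x hx T)]
    exact (k3 x hx T hT z hz).fun_add (((σ_der hT (cz (mem_closedBall_zero_iff.1 hx) hz)).comp z
      ((hasDerivAt_id' z).const_mul _)).const_mul _)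
  have ap := fun x hx ε (h : 0 < ε) => approx hx (k2 x hx) (k4 x hx) h
  have lnw : ∀ x ∈ D, ∃ l : ℂ, ∀ᶠ q : ℝ × ℂ in atTop ×ˢ 𝓝[D] x,
      0 < (deriv (G g ζ d q.1) q.2 * l).re := fun x hx => by
    obtain ⟨l, a1, c, c0, a2⟩ : ∃ l : ℂ, 0 < (deriv g x * l).re ∧
        ∃ c : ℝ, 0 ≤ c ∧ E x * conj x * l = c := by
      rcases k1 x hx with h | ⟨i, rfl, h⟩
      · exact ⟨conj (deriv g x), by
          rw [mul_conj, ofReal_re]; exact normSq_pos.2 (hg.nz x hx), 0, le_rfl, by simp [h.1]⟩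
      · refine ⟨ζ i * conj (d i), ?_, normSq (d i), normSq_nonneg _, ?_⟩
        · have := ht i
          rwa [Tr, ← conj_re, map_mul, conj_conj, mul_comm, mul_assoc] at this
        · rw [h, ← mul_conj]
          linear_combination d i * conj (d i) * cc (h1 i)
    refine ⟨l, ?_⟩
    filter_upwards [((continuous_re.tendsto _).comp ((k5 x hx).mul_const l)).eventually
      (lt_mem_nhds a1), tendsto_fst.eventually (eventually_gt_atTop 0),
      near (x := x) one_pos] with q b1 b2 b3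
    rw [(der x hx _ b2 _ b3.2).deriv, add_mul, add_re, show E x * (σd q.1 (conj x * q.2) *
      (conj x * 1)) * l = c * σd q.1 (conj x * q.2) by rw [← a2]; ring, re_ofReal_mul]
    exact add_pos_of_pos_of_nonneg b1
      (mul_nonneg c0 (σd_re b2 (cz (mem_closedBall_zero_iff.1 hx) b3.2)))
  have sep : ∀ x ∈ D, ∀ y ∈ D, x ≠ y → ∀ s ∈ Icc (0 : ℝ) 1, ∀ t ∈ Icc (0 : ℝ) 1,
      g x + s * E x ≠ g y + t * E y := by
    have w : ∀ x ∈ D, ∀ j, x ≠ ζ j → ∀ t ∈ Icc (0 : ℝ) 1, g x ≠ g (ζ j) + t * d j :=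
      fun x hx j ne t ht => by
        rcases ht.1.eq_or_lt with rfl | h
        · simpa using fun e => ne (hg.inj hx (mD j) e)
        · exact ha j x hx t ⟨h, ht.2⟩
    intro x hx y hy ne s hs' t ht'
    rcases k1 x hx with h | ⟨i, rfl, h⟩ <;> rcases k1 y hy with h' | ⟨j, rfl, h'⟩
    · simpa [h.1, h'.1] using fun e => ne (hg.inj hx hy e)
    · simpa [h.1, h'] using w x hx j ne t ht'
    · simpa [h, h'.1] using (w y hy i ne.symm s hs').symm
    · rw [h, h']; exact hs i j (fun e => ne (by rw [e])) s hs' t ht'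
  have tip : ∀ i, Tendsto (fun T : ℝ => (T, ζ i)) atTop (atTop ×ˢ 𝓝[D] (ζ i)) := fun i =>
    tendsto_id.prodMk (tendsto_const_pure.mono_right (pure_le_nhdsWithin (mD i)))
  have apex : ∀ i, Tendsto (fun T => G g ζ d T (ζ i)) atTop (𝓝 (g (ζ i) + d i)) := fun i => by
    refine (((k4 _ (mD i)).comp (tip i)).add_const (d i)).congr' ?_
    filter_upwards [eventually_gt_atTop 0] with T hT
    rw [k2 _ (mD i), cc (h1 i), σ_one hT, Ei, mul_one, Function.comp]
  refine Eventually.and ?_ (Eventually.and (eventually_all.2 fun i => eventually_all.2 fun k =>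
    Eventually.and ?_ ?_) (Eventually.and (eventually_all.2 fun i => ?_) ?_))
  · have a1 : ∀ᶠ T in atTop, ∀ z ∈ D, deriv (G g ζ d T) z ≠ 0 :=
      cpt (isCompact_closedBall 0 1) fun x hx => by
        obtain ⟨l, h⟩ := lnw x hx
        exact h.mono fun q hq e => by simp [e] at hq
    have a2 : ∀ᶠ T in atTop, ∀ p ∈ D ×ˢ D, G g ζ d T p.1 = G g ζ d T p.2 → p.1 = p.2 :=
      cpt ((isCompact_closedBall 0 1).prod (isCompact_closedBall 0 1)) fun p hp => by
        obtain ⟨x, y⟩ := p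
        rw [nhdsWithin_prod_eq]
        have t1 : Tendsto (fun q : ℝ × ℂ × ℂ => (q.1, q.2.1)) (atTop ×ˢ 𝓝[D] x ×ˢ 𝓝[D] y)
          (atTop ×ˢ 𝓝[D] x) := tendsto_fst.prodMk (tendsto_fst.comp tendsto_snd)
        have t2 : Tendsto (fun q : ℝ × ℂ × ℂ => (q.1, q.2.2)) (atTop ×ˢ 𝓝[D] x ×ˢ 𝓝[D] y)
          (atTop ×ˢ 𝓝[D] y) := tendsto_fst.prodMk (tendsto_snd.comp tendsto_snd)
        rcases eq_or_ne x y with rfl | ne
        · obtain ⟨l, h⟩ := lnw x hp.1
          obtain ⟨δ, δ0, h⟩ := loc (p := fun T z => 0 < (deriv (G g ζ d T) z * l).re) h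
          filter_upwards [tendsto_fst.eventually h, tendsto_fst.eventually (eventually_gt_atTop 0),
            t1.eventually (near δ0), t2.eventually (near δ0)] with q b1 b2 b3 b4
          exact nw ((convex_ball x δ).inter (convex_closedBall 0 1))
            (fun z hz => (der x hp.1 _ b2 z hz.2).differentiableAt.hasDerivAt) b1 b3 b4
        · obtain ⟨η, η0, h⟩ := gap (sep x hp.1 y hp.2 ne)
          filter_upwards [t1.eventually (ap x hp.1 _ (half_pos η0)),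
            t2.eventually (ap y hp.2 _ (half_pos η0))]
          rintro q ⟨s, b1, b2⟩ ⟨t, b3, b4⟩ e
          have := norm_sub_le_norm_sub_add_norm_sub (g x + s * E x) (G g ζ d q.1 q.2.2)
            (g y + t * E y)
          rw [e, norm_sub_rev] at b2
          linarith [h s b1 t b3]
    filter_upwards [a1, a2, eventually_gt_atTop 0] with T b1 b2 b3
    refine ⟨fun z hz => (hg.an z hz).add (Finset.analyticAt_fun_sum _ fun i _ =>
      analyticAt_const.mul ((σ_an b3 (cz (h1 i).le hz)).fun_comp_of_eq (by fun_prop) rfl)),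
      fun x hx y hy => b2 (x, y) ⟨hx, hy⟩, b1⟩
  · have t1 := (continuous_re.tendsto _).comp ((continuous_conj.tendsto _).comp
      (((k5 _ (mD i)).comp (tip i)).mul_const (ζ i)) |>.const_mul (e i k))
    have t2 : Tendsto (fun T => rr T * (Real.exp T / T ^ 1) * (e i k * conj (d i)).re) atTop atTop :=
      (rr_lim.pos_mul_atTop one_pos (Real.tendsto_exp_div_pow_atTop 1)).atTop_mul_const (he i k)
    filter_upwards [(t1.add_atTop t2).eventually_gt_atTop 0, eventually_gt_atTop 0] with T b1 b2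
    have : σd T 1 = (rr T * (Real.exp T / T ^ 1) : ℝ) := by
      rw [σd, mul_one, show (1 : ℂ) - rr T = (Real.exp (-T) : ℝ) by rw [rr]; push_cast; ring,
        Real.exp_neg]
      push_cast
      field_simp
    rw [Tr, (der _ (mD i) T b2 _ (mD i)).deriv, cc (h1 i), this, Ei]
    refine b1.trans_eq ?_
    rw [← re_ofReal_mul, Function.comp, ← add_re]
    congr 1
    have := cc (h1 i)
    simp only [Function.comp, map_mul, map_add, conj_ofReal, conj_conj, map_one]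
    linear_combination (-(e i k * conj (d i) * (rr T * (Real.exp T / T ^ 1) : ℝ))) * this
  · refine cpt (isCompact_closedBall 0 1) fun x hx => ?_
    rcases eq_or_ne x (ζ i) with rfl | ne
    · obtain ⟨C, hC⟩ : ∃ C, C = (‖deriv g (ζ i)‖ + 1) *
        (1 + ‖d i‖ * ‖e i k‖ / (e i k * conj (d i)).re) := ⟨_, rfl⟩
      have d0 : 0 < ‖d i‖ := norm_pos_iff.2 fun c => by simpa [c] using he i k
      have C0 : 0 < C := by have := he i k; rw [hC]; positivity
      obtain ⟨δ, δ0, h⟩ := loc (p := fun T z => ‖R' (ζ i) T z‖ < ‖deriv g (ζ i)‖ + 1)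
        ((k5 _ hx).norm.eventually (gt_mem_nhds (lt_add_one _)))
      obtain ⟨ρ, hρ⟩ : ∃ ρ, ρ = ‖d i‖ / (8 * C) := ⟨_, rfl⟩
      have ρ0 : 0 < ρ := by rw [hρ]; positivity
      have t : Tendsto (fun T => Real.log (rr T * ρ) + T / 2) atTop atTop :=
        ((rr_lim.mul_const ρ).log (by simpa using ρ0.ne')).add_atTop
          (tendsto_id.atTop_div_const two_pos)
      filter_upwards [tendsto_fst.eventually h, tendsto_fst.eventually (eventually_gt_atTop 0),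
        tendsto_fst.eventually (t.eventually_ge_atTop 0), near δ0, near ρ0]
      rintro ⟨T, z⟩ b1 b2 b3 b4 b5 s hs e1
      have u1 : ‖1 - conj (ζ i) * z‖ = ‖z - ζ i‖ := by
        rw [← cc (h1 i), ← mul_sub, norm_mul, RCLike.norm_conj, h1, one_mul, norm_sub_rev]
      obtain ⟨c1, c2⟩ := σ_tip b2 (cz (h1 i).le b4.2) ρ0
        (u1 ▸ (mem_ball_iff_norm.1 b5.1).le) (by linarith)
      have c3 := ((convex_ball (ζ i) δ).inter (convex_closedBall 0 1)
        ).norm_image_sub_le_of_norm_hasDerivWithin_le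
        (fun y hy => (k3 _ hx T b2 y hy.2).hasDerivWithinAt) (fun y hy => (b1 y hy).le)
        ⟨mem_ball_self δ0, hx⟩ b4
      simp only [k2 _ hx, cc (h1 i), σ_one b2, Ei] at e1
      have c4 := alg hs.1.le (he i k) le_rfl c1 (E := R (ζ i) T z - R (ζ i) T (ζ i))
        (by linear_combination -e1)
      have c5 := c4.trans (mul_le_mul_of_nonneg_right c3 (by have := he i k; positivity))
      rw [mul_right_comm, ← hC] at c5
      rw [u1] at c2
      have c6 : ‖z - ζ i‖ ≤ 0 := by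
        have : ‖d i‖ = 8 * C * ρ := by rw [hρ]; field_simp
        rw [this] at c5
        nlinarith [mul_le_mul_of_nonneg_left c2 C0.le]
      rw [sub_eq_zero.1 (norm_le_zero_iff.1 c6), cc (h1 i), σ_one b2, left_eq_add, mul_eq_zero] at e1
      rcases e1 with c | c
      · exact hs.1.ne' (ofReal_eq_zero.1 c)
      · simpa [c] using he i k
    · obtain ⟨η, η0, h⟩ := gap (p := g x) (d := E x) (q := g (ζ i) + d i) (e := e i k)
        fun t ht s hs => by
          rcases k1 x hx with h | ⟨j, rfl, h⟩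
          · simpa [h.1] using h2 i k s hs x hx
          · rw [h]; exact h3 i k s hs j (fun e => ne (by rw [e])) t ht
      filter_upwards [ap x hx _ (half_pos η0), tendsto_fst.eventually
        ((tendsto_iff_norm_sub_tendsto_zero.1 (apex i)).eventually (gt_mem_nhds (half_pos η0)))]
      rintro q ⟨t, b1, b2⟩ b3 s hs e1
      have := norm_sub_le_norm_sub_add_norm_sub (g x + t * E x) (G g ζ d q.1 q.2)
        (g (ζ i) + d i + s * e i k)
      rw [norm_sub_rev] at b2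
      nth_rewrite 2 [e1] at this
      rw [add_sub_add_right_eq_sub] at this
      linarith [h t b1 s (Ioc_subset_Icc_self hs)]
  · exact (tendsto_iff_norm_sub_tendsto_zero.1 (apex i)).eventually (gt_mem_nhds hε)
  · refine cpt (isCompact_closedBall 0 1) fun x hx => (ap x hx ε hε).mono ?_
    rintro q ⟨s, b1, b2⟩
    rcases k1 x hx with h | ⟨j, rfl, h⟩
    · exact Or.inl ⟨x, hx, by simpa [h.1] using b2⟩
    · exact Or.inr ⟨j, s, b1, h ▸ b2⟩

end Pool.Agent.H.MP_cf5e8f_an
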