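import Pool.Agent.H.MP_cf5e8f_an.B

set_option autoImplicit false
open Set Filter Metric Complex Topology ComplexConjugate

namespace Pool.Agent.H.MP_cf5e8f_an

lemma shift1 {B : Type*} {l : Filter B} {g : ℂ → ℂ} {x e : ℂ} {y : B → ℂ} (hg : Good g)
    (hx : ‖x‖ = 1) (hy : ∀ b, ‖y b‖ = 1) (hl : Tendsto y l (𝓝 x)) (ht : Tr g x e)
    (ha : Av g x e) : ∀ᶠ b in l, Tr g (y b) e ∧ Av g (y b) e := by
  have mD : x ∈ D := mem_closedBall_zero_iff.2 hx.le
  have cg := (hg.an x mD).continuousAt.tendsto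
  refine Eventually.and ?_ (cpt (isCompact_closedBall 0 1) fun z hz => ?_)
  · exact ((continuous_re.tendsto _).comp (((continuous_conj.tendsto _).comp
      (((hg.an x mD).deriv.continuousAt.tendsto.comp hl).mul hl)).const_mul e)).eventually
      (lt_mem_nhds ht)
  have t2 : Tendsto (fun q : B × ℂ => q.2) (l ×ˢ 𝓝[D] z) (𝓝 z) :=
    tendsto_snd.mono_right nhdsWithin_le_nhds
  have t1 : Tendsto (fun q : B × ℂ => y q.1) (l ×ˢ 𝓝[D] z) (𝓝 x) := hl.comp tendsto_fst
  rcases eq_or_ne z x with rfl | ne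
  · obtain ⟨α, hα⟩ : ∃ α, α = (e * conj (deriv g z * z)).re / 2 := ⟨_, rfl⟩
    have α0 : 0 < α := hα ▸ half_pos ht
    have d0 : 0 < ‖deriv g z‖ := norm_pos_iff.2 (hg.nz z hz)
    obtain ⟨C, hC⟩ : ∃ C, C = 1 + ‖deriv g z‖ * ‖e‖ / α := ⟨_, rfl⟩
    have C0 : 0 < C := by rw [hC]; positivity
    have s1 := (hasStrictDerivAt_iff_hasStrictFDerivAt.1 (hg.an z hz).hasStrictDerivAt).isLittleO
    have s2 := (t2.prodMk_nhds t1).eventually (s1.def (c := ‖deriv g z‖ / (2 * C)) (by positivity))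
    have s3 : ∀ᶠ q : B × ℂ in l ×ˢ 𝓝[D] z, α < (e * conj (deriv g z * y q.1)).re :=
      ((continuous_re.tendsto _).comp (((continuous_conj.tendsto _).comp
        (t1.const_mul (deriv g z))).const_mul e)).eventually (lt_mem_nhds (hα ▸ half_lt_self ht))
    filter_upwards [s2, s3, near (x := z) one_pos]
    rintro ⟨b, w⟩ b1 b2 b3 s hs e1
    have u1 : ‖1 - conj (y b) * w‖ = ‖w - y b‖ := by
      rw [← cc (hy b), ← mul_sub, norm_mul, RCLike.norm_conj, hy, one_mul, norm_sub_rev]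
    have c1 : 0 ≤ (1 - conj (y b) * w).re := by
      simpa using (re_le_norm _).trans (cz (hy b).le b3.2)
    have c4 := alg hs.1.le α0 b2.le c1 (E := g w - g (y b) - (w - y b) * deriv g z)
      (by have := cc (hy b); linear_combination -e1 - deriv g z * w * this)
    simp only [ContinuousLinearMap.toSpanSingleton_apply, smul_eq_mul] at b1
    rw [norm_mul, hy, mul_one, ← hC, u1] at c4
    have c5 := c4.trans (mul_le_mul_of_nonneg_right b1 C0.le)
    rw [show ‖deriv g z‖ / (2 * C) * ‖w - y b‖ * C = ‖deriv g z‖ * ‖w - y b‖ / 2 by field_simp] at c5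
    have c6 : ‖w - y b‖ ≤ 0 := by nlinarith
    simp only [sub_eq_zero.1 (norm_le_zero_iff.1 c6), left_eq_add, mul_eq_zero] at e1
    rcases e1 with c | c
    · exact hs.1.ne' (ofReal_eq_zero.1 c)
    · simp [c, Tr] at ht
  · obtain ⟨η, η0, h⟩ := gap (p := g z) (d := 0) (q := g x) (e := e) fun t _ s hs => by
      rcases hs.1.eq_or_lt with rfl | h
      · simpa using fun e => ne (hg.inj hz mD e)
      · simpa using ha z hz s ⟨h, hs.2⟩
    filter_upwards [(tendsto_iff_norm_sub_tendsto_zero.1 ((hg.an z hz).continuousAt.tendsto.comp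
      t2)).eventually (gt_mem_nhds (half_pos η0)), (tendsto_iff_norm_sub_tendsto_zero.1
      (cg.comp t1)).eventually (gt_mem_nhds (half_pos η0))]
    rintro ⟨b, w⟩ b1 b2 s hs e1
    have := h 0 (left_mem_Icc.2 zero_le_one) s (Ioc_subset_Icc_self hs)
    simp only [Function.comp] at b1 b2 e1
    rw [show g z + (0 : ℝ) * 0 - (g x + s * e) = (g (y b) - g x) - (g w - g z) by
      rw [e1]; ring] at this
    linarith [norm_sub_le (g (y b) - g x) (g w - g z)]

lemma shift2 {g : ℂ → ℂ} {x : ℂ} (hg : Good g) (hx : ‖x‖ = 1) : ∀ᶠ t : ℝ in 𝓝[>] 0,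
    0 < ((g (x * exp (t * I)) - g (x * exp (-t * I))) * conj (deriv g x * x)).im := by
  have mD : x ∈ D := mem_closedBall_zero_iff.2 hx.le
  have d : ∀ c : ℂ, HasDerivAt (fun t : ℂ => g (x * exp (c * t * I))) (deriv g x * x * c * I) 0 :=
    fun c => ((hg.an x mD).differentiableAt.hasDerivAt.comp_of_eq (0 : ℂ)
      ((((hasDerivAt_id' (0 : ℂ)).const_mul c).mul_const I).cexp.const_mul x) (by simp)
      ).congr_deriv (by simp; ring)
  have d2 := ((((d 1).fun_sub (d (-1))).mul_const (conj (deriv g x * x))).mul_const (-I)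
    ).real_of_complex (z := 0)
  have n0 : 0 < normSq (deriv g x * x) :=
    normSq_pos.2 (mul_ne_zero (hg.nz x mD) (norm_ne_zero_iff.1 (by simp [hx])))
  rw [show (deriv g x * x * 1 * I - deriv g x * x * -1 * I) * conj (deriv g x * x) * -I =
    ((2 * normSq (deriv g x * x) : ℝ) : ℂ) by
      rw [ofReal_mul, ← mul_conj]; push_cast; linear_combination
        (-2 * (deriv g x * x) * conj (deriv g x * x)) * I_mul_I, ofReal_re] at d2
  filter_upwards [d2.tendsto_slope_zero_right.eventually (lt_mem_nhds (mul_pos two_pos n0)|>.mono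
    fun _ h => h), self_mem_nhdsWithin] with t h ht
  have := mul_pos (mem_Ioi.1 ht) h
  simpa [(mem_Ioi.1 ht).ne'] using this

lemma sin3 (φ : ℝ) : |Real.sin φ| + |Real.sin (φ + Real.pi / 3)| +
    |Real.sin (φ + Real.pi / 3 + Real.pi / 3)| ≤ 2 := by
  have h := Real.sin_sq_add_cos_sq φ
  have h3 : √3 ^ 2 = 3 := Real.sq_sqrt (by norm_num)
  simp only [Real.sin_add, Real.cos_add, Real.sin_pi_div_three, Real.cos_pi_div_three]
  obtain ⟨c, hc⟩ : ∃ c, c = Real.cos φ * √3 := ⟨_, rfl⟩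
  have h4 : 3 * Real.sin φ ^ 2 + c ^ 2 = 3 := by rw [hc, mul_pow, h3]; linarith
  rw [show Real.sin φ * (1 / 2) + Real.cos φ * (√3 / 2) = (Real.sin φ + c) / 2 by rw [hc]; ring,
    show (Real.sin φ + c) / 2 * (1 / 2) + (Real.cos φ * (1 / 2) - Real.sin φ * (√3 / 2)) * (√3 / 2)
      = (c - Real.sin φ) / 2 by rw [hc]; linear_combination (-Real.sin φ / 4) * h3]
  generalize Real.sin φ = s at *
  have a1 : s + c ≤ 2 := by nlinarith [sq_nonneg (s - 1 / 2), sq_nonneg (c - 3 / 2)]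
  have a2 : s - c ≤ 2 := by nlinarith [sq_nonneg (s - 1 / 2), sq_nonneg (c + 3 / 2)]
  have a3 : -s + c ≤ 2 := by nlinarith [sq_nonneg (s + 1 / 2), sq_nonneg (c - 3 / 2)]
  have a4 : -s - c ≤ 2 := by nlinarith [sq_nonneg (s + 1 / 2), sq_nonneg (c + 3 / 2)]
  have a5 : s ≤ 1 := by nlinarith [sq_nonneg c]
  have a6 : -1 ≤ s := by nlinarith [sq_nonneg c]
  cases abs_cases s <;> cases abs_cases ((s + c) / 2) <;> cases abs_cases ((c - s) / 2) <;> linarith

lemma per {F : ℕ → ℝ} {H m : ℕ} {c t : ℝ} (F0 : ∀ n, 0 ≤ F n) (h1 : ∀ n, F (n + H) = F n)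
    (h2 : ∀ n, ∑ k ∈ Finset.range H, F (n + k) ≤ H * c) (ht : (m * H : ℕ) * t = Real.pi / 3) :
    (∀ n : ℕ, 2 * |Real.sin ((n + 3 * (m * H) : ℕ) * t)| * F (n + 3 * (m * H)) =
      2 * |Real.sin (n * t)| * F n) ∧ ∀ n, ∑ k ∈ Finset.range (3 * (m * H)),
      2 * |Real.sin ((n + k : ℕ) * t)| * F (n + k) ≤ (3 * (m * H) : ℕ) * (c * (4 / 3)) := by
  have p : ∀ m n, F (n + m * H) = F n := fun m n => by
    induction m with
    | zero => simp
    | succ m ih => rw [add_mul, one_mul, ← add_assoc, h1, ih]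
  have q : ∀ m n, ∑ k ∈ Finset.range (m * H), F (n + k) ≤ m * H * c := fun m n => by
    induction m with
    | zero => simp
    | succ m ih =>
      rw [add_mul, one_mul, Finset.sum_range_add]
      simp only [← add_assoc]
      push_cast
      linarith [h2 (n + m * H)]
  refine ⟨fun n => ?_, fun n => ?_⟩
  · rw [← mul_assoc 3, p, Nat.cast_add, add_mul, mul_assoc 3, Nat.cast_mul 3, mul_assoc _ _ t, ht,
      show ((3 : ℕ) : ℝ) * (Real.pi / 3) = Real.pi by push_cast; ring, Real.sin_add_pi, abs_neg]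
  · rw [show 3 * (m * H) = m * H + (m * H + m * H) by ring, Finset.sum_range_add,
      Finset.sum_range_add, ← Finset.sum_add_distrib, ← Finset.sum_add_distrib]
    refine (Finset.sum_le_sum (g := fun k => 4 * F (n + k)) fun k _ => ?_).trans ?_
    · rw [show n + (m * H + k) = n + k + m * H by ring,
        show n + (m * H + (m * H + k)) = n + k + m * H + m * H by ring]
      simp only [p, Nat.cast_add _ (m * H), add_mul _ _ t, ht]
      nlinarith [mul_le_mul_of_nonneg_right (sin3 ((n + k : ℕ) * t)) (F0 (n + k))]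
    · rw [← Finset.mul_sum]
      push_cast
      linarith [q m n]

lemma blk {w F : ℕ → ℝ} {H : ℕ} {c : ℝ} (hw : Antitone w) (w0 : ∀ n, 0 ≤ w n) (F0 : ∀ n, 0 ≤ F n)
    (h2 : ∀ n, ∑ k ∈ Finset.range H, F (n + k) ≤ H * c) (c0 : 0 ≤ c) (M : ℕ) :
    ∑ n ∈ Finset.range (M * H + H), w n * F n ≤ c * (H * w 0 + ∑ n ∈ Finset.range (M * H), w n) := by
  have a : ∀ N, ∑ k ∈ Finset.range H, w (N + k) * F (N + k) ≤ c * (H * w N) := fun N => by
    refine (Finset.sum_le_sum (g := fun k => w N * F (N + k)) fun k _ =>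
      mul_le_mul_of_nonneg_right (hw (Nat.le_add_right _ _)) (F0 _)).trans ?_
    rw [← Finset.mul_sum]
    exact (mul_le_mul_of_nonneg_left (h2 N) (w0 N)).trans_eq (by ring)
  induction M with
  | zero => simpa using a 0
  | succ M ih =>
    rw [add_mul, one_mul, Finset.sum_range_add, Finset.sum_range_add w (M * H) H]
    have b := Finset.card_nsmul_le_sum (Finset.range H) (fun k => w (M * H + k)) (w (M * H + H))
      fun k hk => hw (Nat.add_le_add_left (Finset.mem_range.1 hk).le _)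
    rw [Finset.card_range, nsmul_eq_mul] at b
    linarith [a (M * H + H), mul_le_mul_of_nonneg_left b c0]

noncomputable def co (T : ℝ) (n : ℕ) : ℝ := rr T ^ n / n / T

lemma co0 {T : ℝ} (hT : 0 < T) (n : ℕ) : 0 ≤ co T n := by
  have := rr0 hT
  unfold co
  positivity

lemma co_ser {T : ℝ} (hT : 0 < T) {w : ℂ} (hw : ‖w‖ ≤ 1) :
    HasSum (fun n => co T n * w ^ n) (σ T w) := by
  have := (hasSum_taylorSeries_neg_log (z := rr T * w) (by
    rw [norm_mul, norm_real, Real.norm_of_nonneg (rr0 hT).le]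
    nlinarith [rr0 hT, rr1 T, norm_nonneg w])).div_const (T : ℂ)
  rwa [show (fun n => co T n * w ^ n : ℕ → ℂ) = fun n : ℕ => (rr T * w) ^ n / n / T by
    ext n; rw [co]; push_cast; ring]

lemma co_le {T : ℝ} (hT : 0 < T) (N : ℕ) : ∑ n ∈ Finset.range N, co T n ≤ 1 := by
  have := co_ser hT (w := 1) (by simp)
  rw [σ_one hT] at this
  simp only [one_pow, mul_one] at this
  exact sum_le_hasSum _ (fun n _ => co0 hT n) (hasSum_ofReal.1 this)

lemma wt {T : ℝ} {F : ℕ → ℝ} {H : ℕ} {c : ℝ} (H0 : 0 < H) (hT : (H : ℝ) ≤ T) (F0 : ∀ n, 0 ≤ F n)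
    (h2 : ∀ n, ∑ k ∈ Finset.range H, F (n + k) ≤ H * c) (c0 : 0 ≤ c) (N : ℕ) :
    ∑ n ∈ Finset.range N, co T n * F n ≤ 2 * c := by
  have T0 : 0 < T := (Nat.cast_pos.2 H0).trans_le hT
  have a := blk (w := fun n => co T (n + 1)) (F := fun n => F (n + 1)) (H := H)
    (antitone_nat_of_succ_le fun n => by
      have := rr0 T0
      unfold co
      exact div_le_div_of_nonneg_right (div_le_div₀ (by positivity)
        (pow_le_pow_of_le_one this.le (rr1 T).le (Nat.le_succ _)) (by positivity)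
        (Nat.cast_le.2 (Nat.le_succ _))) T0.le) (fun n => co0 T0 _) (fun n => F0 _)
    (fun n => by simpa only [add_right_comm n] using h2 (n + 1)) c0 N
  have b := co_le T0 (N * H + 1)
  rw [Finset.sum_range_succ'] at b
  have d : H * co T (0 + 1) ≤ 1 := by
    simp only [co, zero_add, pow_one, Nat.cast_one, div_one]
    rw [← mul_div_assoc, div_le_one T0]
    nlinarith [rr1 T, rr0 T0]
  refine (Finset.sum_le_sum_of_subset_of_nonneg (Finset.range_mono (show N ≤ N * H + H + 1 by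
    nlinarith)) fun n _ _ => mul_nonneg (co0 T0 n) (F0 n)).trans ?_
  rw [Finset.sum_range_succ', show co T 0 = 0 by simp [co]]
  nlinarith [co0 T0 0]

end Pool.Agent.H.MP_cf5e8f_an
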