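import Pool.Agent.H.MP_cf5e8f_an.C

set_option autoImplicit false
open Set Filter Metric Complex Topology ComplexConjugate

namespace Pool.Agent.H.MP_cf5e8f_an

def sg (s : Bool) : ℝ := cond s 1 (-1)
noncomputable def lc (p u w : ℂ) : ℂ := (w - p) * conj u
def In (p u : ℂ) (a b : ℝ) (w : ℂ) : Prop := |(lc p u w).re| < a ∧ |(lc p u w).im| < b

lemma sg2 (s : Bool) : sg s * sg s = 1 := by cases s <;> simp [sg]
lemma sgn (s : Bool) : ‖(sg s : ℂ)‖ = 1 := by cases s <;> simp [sg]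
lemma sga (s : Bool) (x : ℝ) : |sg s * x| = |x| := by cases s <;> simp [sg]

lemma lcb {p u c w : ℂ} {r : ℝ} (hu : ‖u‖ = 1) (h : ‖w - (p + c * u)‖ < r) :
    |(lc p u w).re - c.re| < r ∧ |(lc p u w).im - c.im| < r := by
  have e : ‖lc p u w - c‖ < r := by
    rwa [show lc p u w - c = (w - (p + c * u)) * conj u by
      rw [lc]; linear_combination c * cc hu, norm_mul, RCLike.norm_conj, hu, mul_one]
  exact ⟨(abs_re_le_norm (_ - c)).trans_lt e, (abs_im_le_norm (_ - c)).trans_lt e⟩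

variable {ι : Type}

structure Geo (g : ℂ → ℂ) (ζ u : ι → ℂ) (a b τ : ℝ) : Prop where
  h1 : ∀ v, ‖ζ v‖ = 1
  hu : ∀ v, ‖u v‖ = 1
  good : Good g
  tr : ∀ v s, Tr g (ζ v) (τ * (1 + sg s * I) * u v) ∧ Av g (ζ v) (τ * (1 + sg s * I) * u v)
  dis : ∀ v v' w, In (g (ζ v)) (u v) a b w → In (g (ζ v')) (u v') a b w → v = v'
  stem : ∀ v, ∀ z ∈ D, In (g (ζ v)) (u v) a b (g z) →
    |(lc (g (ζ v)) (u v) (g z)).im| < τ / 4 ∧ (lc (g (ζ v)) (u v) (g z)).re < τ / 4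

noncomputable def sh (ζ : ι → ℂ) (t : ℝ) (i : ι × Bool) : ℂ := ζ i.1 * exp (sg i.2 * t * I)
noncomputable def nu (u : ι → ℂ) (i : ι × Bool) : ℂ := sg i.2 * I * u i.1

lemma sh1 {ζ : ι → ℂ} (h : ∀ v, ‖ζ v‖ = 1) (t : ℝ) (i : ι × Bool) : ‖sh ζ t i‖ = 1 := by
  rw [sh, norm_mul, h, ← ofReal_mul, norm_exp_ofReal_mul_I, one_mul]

lemma nu1 {u : ι → ℂ} (h : ∀ v, ‖u v‖ = 1) (i : ι × Bool) : ‖nu u i‖ = 1 := by
  rw [nu, norm_mul, norm_mul, h, sgn, norm_I, mul_one, mul_one]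

def Q (p u : ι → ℂ) (i : ι × Bool) (w : ℂ) (x0 x1 y0 y1 : ℝ) : Prop :=
  x0 < (lc (p i.1) (u i.1) w).re ∧ (lc (p i.1) (u i.1) w).re < x1 ∧
    y0 < sg i.2 * (lc (p i.1) (u i.1) w).im ∧ sg i.2 * (lc (p i.1) (u i.1) w).im < y1

section
variable {p u : ι → ℂ} {i j : ι × Bool} {w w' : ℂ} {x0 x1 y0 y1 x2 x3 y2 y3 r a b : ℝ}

lemma Q.mono (h : Q p u i w x0 x1 y0 y1) (a0 : x2 ≤ x0 := by linarith) (a1 : x1 ≤ x3 := by linarith)
    (a2 : y2 ≤ y0 := by linarith) (a3 : y1 ≤ y3 := by linarith) : Q p u i w x2 x3 y2 y3 :=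
  ⟨a0.trans_lt h.1, h.2.1.trans_le a1, a2.trans_lt h.2.2.1, h.2.2.2.trans_le a3⟩

lemma Q.of (hu : ∀ v, ‖u v‖ = 1) (c1 c2 : ℝ) (h : ‖w - (p i.1 + c1 * u i.1 + c2 * nu u i)‖ < r) :
    Q p u i w (c1 - r) (c1 + r) (c2 - r) (c2 + r) := by
  obtain ⟨a, b⟩ := lcb (c := c1 + (c2 * sg i.2 : ℝ) * I) (p := p i.1) (w := w) (r := r) (hu i.1)
    (by rw [nu] at h; convert h using 3; push_cast; ring)
  rw [← sga i.2, mul_sub] at b
  simp only [add_re, add_im, ofReal_re, ofReal_im, mul_I_re, mul_I_im, neg_zero, add_zero,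
    zero_add, mul_left_comm (sg i.2), sg2, mul_one, abs_lt] at a b
  exact ⟨by linarith, by linarith, by linarith, by linarith⟩

lemma Q.lip (h : Q p u i w x0 x1 y0 y1) (hu : ∀ v, ‖u v‖ = 1) (e : ‖w' - w‖ < r) :
    Q p u i w' (x0 - r) (x1 + r) (y0 - r) (y1 + r) := by
  obtain ⟨a, b⟩ := lcb (c := lc (p i.1) (u i.1) w) (p := p i.1) (w := w') (r := r) (hu i.1)
    (by convert e using 2; rw [lc]; linear_combination (p i.1 - w) * cc (hu i.1))
  rw [← sga i.2, mul_sub] at b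
  obtain ⟨h1, h2, h3, h4⟩ := h
  rw [abs_lt] at a b
  exact ⟨by linarith, by linarith, by linarith, by linarith⟩

lemma Q.child (h : Q p u i w x0 x1 y0 y1) (e : In w (nu u i) a b w') :
    Q p u i w' (x0 - b) (x1 + b) (y0 - a) (y1 + a) := by
  have e1 : lc (p i.1) (u i.1) w' = lc (p i.1) (u i.1) w + sg i.2 * (lc w (nu u i) w' * I) := by
    have : (sg i.2 : ℂ) * sg i.2 = 1 := by rw [← ofReal_mul, sg2, ofReal_one]
    simp only [lc, nu, map_mul, conj_ofReal, conj_I]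
    linear_combination ((w' - w) * conj (u i.1) * (sg i.2 * sg i.2)) * I_mul_I -
      (w' - w) * conj (u i.1) * this
  obtain ⟨h1, h2, h3, h4⟩ := h
  obtain ⟨a, b⟩ := e
  rw [← abs_neg, ← sga i.2] at b
  rw [abs_lt] at a b
  rw [Q, e1, add_re, add_im, re_ofReal_mul, im_ofReal_mul, mul_I_re, mul_I_im, mul_add,
    ← mul_assoc, sg2]
  exact ⟨by linarith, by linarith, by linarith, by linarith⟩

lemma Q.inn (h : Q p u i w (-a) a (-b) b) : In (p i.1) (u i.1) a b w :=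
  ⟨abs_lt.2 ⟨h.1, h.2.1⟩, by rw [← sga i.2]; exact abs_lt.2 h.2.2⟩

lemma Q.same (hd : ∀ v v' w, In (p v) (u v) a b w → In (p v') (u v') a b w → v = v')
    (h : Q p u i w (-a) a (-b) b) (h' : Q p u j w (-a) a (-b) b) : i.1 = j.1 :=
  hd _ _ _ h.inn h'.inn

lemma Q.sepA (hd : ∀ v v' w, In (p v) (u v) a b w → In (p v') (u v') a b w → v = v') (ne : i ≠ j)
    (h : Q p u i w (-a) a y0 b) (h' : Q p u j w (-a) a y2 b) (a0 : -b ≤ y0 := by linarith)
    (a1 : -b ≤ y2 := by linarith) (a2 : 0 ≤ y0 + y2 := by linarith) : False := by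
  obtain ⟨v, s⟩ := i
  obtain ⟨v', s'⟩ := j
  obtain rfl : v = v' := Q.same hd h.mono h'.mono
  have b1 := h.2.2.1
  have b2 := h'.2.2.1
  cases s <;> cases s' <;> simp [sg] at ne b1 b2 <;> linarith

lemma Q.sepB (hd : ∀ v v' w, In (p v) (u v) a b w → In (p v') (u v') a b w → v = v')
    (h : Q p u i w (-a) a y0 b) (h' : Q p u j w (-a) a (-y0) y0) (a0 : 0 ≤ y0 := by linarith) :
    False := by
  have b0 := h.2.2.1.trans h.2.2.2
  have e := Q.same hd h.mono h'.mono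
  have b1 := h.2.2.1.trans_le (le_abs_self _)
  have b2 := abs_lt.2 h'.2.2
  rw [sga] at b1 b2
  rw [e] at b1
  linarith

end

lemma sib {P M n u : ℂ} {τ s t : ℝ} (h : 0 < ((P - M) * conj n).im)
    (h1 : 0 < (τ * (1 + sg true * I) * u * conj n).re)
    (h2 : 0 < (τ * (1 + sg false * I) * u * conj n).re) (s0 : 0 ≤ s) (t0 : 0 ≤ t) :
    P + s * (τ * (1 + sg true * I) * u) ≠ M + t * (τ * (1 + sg false * I) * u) := fun e => by
  rw [show (P - M) * conj n = -(t * (τ * (1 + sg true * I) * u * conj n) +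
    s * (τ * (1 + sg false * I) * u * conj n)) * I by
      simp only [sg, cond, ofReal_one, ofReal_neg] at e ⊢
      linear_combination conj n * e + (t - s) * τ * u * conj n * I_mul_I,
    mul_I_im, neg_re, add_re, re_ofReal_mul, re_ofReal_mul] at h
  nlinarith [mul_nonneg s0 h2.le, mul_nonneg t0 h1.le]

lemma dg {τ : ℝ} (h : 0 < τ) {u : ℂ} (hu : ‖u‖ = 1) (s : Bool) {t : ℝ} (ht : t ∈ Icc (0 : ℝ) 1) :
    ‖t * (τ * (1 + sg s * I) * u)‖ ≤ 2 * τ := by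
  have := norm_add_le 1 (sg s * I)
  rw [norm_mul, sgn, norm_I, norm_one] at this
  rw [norm_mul, norm_mul, norm_mul, hu, norm_real, norm_real, Real.norm_of_nonneg ht.1,
    Real.norm_of_nonneg h.le]
  nlinarith [ht.2, mul_le_mul_of_nonneg_left this h.le, mul_nonneg h.le (norm_nonneg (1 + sg s * I))]

theorem geo_step [Fintype ι] {g : ℂ → ℂ} {ζ u : ι → ℂ} {a b τ a' b' τ' : ℝ} (h : Geo g ζ u a b τ)
    (τ0 : 0 < τ') (c1 : τ' ≤ τ) (c2 : 2 * τ' ≤ a') (c3 : 2 * τ' ≤ b') (c4 : b' + 2 * τ ≤ a)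
    (c5 : 2 * a' + 5 * τ ≤ b) : ∀ᶠ t in 𝓝[>] 0, ∀ᶠ T in atTop, ∀ᶠ T' in atTop,
      Geo (G (G g (sh ζ t) (fun i => τ * (1 + sg i.2 * I) * u i.1) T) (sh ζ t)
        (fun i => (a' + 3 * τ : ℝ) * nu u i) T') (sh ζ t) (nu u) a' b' τ' := by
  obtain ⟨ε, hε⟩ : ∃ ε, ε = τ' / 20 := ⟨_, rfl⟩
  obtain ⟨L, hL⟩ : ∃ L, L = a' + 3 * τ := ⟨_, rfl⟩
  rw [← hL]
  have ε0 : 0 < ε := by linarith
  have τ1 : 0 < τ := by linarith
  have L0 : 0 < L := by linarith
  have hu := h.hu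
  obtain ⟨p, hp⟩ : ∃ p : ι → ℂ, ∀ v, p v = g (ζ v) := ⟨_, fun _ => rfl⟩
  have hd := h.dis
  have hs := h.stem
  simp only [← hp] at hd hs
  have lim : ∀ i, Tendsto (fun t => sh ζ t i) (𝓝[>] 0) (𝓝 (ζ i.1)) := fun i =>
    (Continuous.tendsto' (by unfold sh; fun_prop) _ _ (by simp [sh])).mono_left nhdsWithin_le_nhds
  have st : ∀ i, ∀ z ∈ D, ¬ Q p u i (g z) (-a) a (τ / 4) b := fun i z hz q => by
    have := (hs i.1 z hz q.mono.inn).1
    rw [← sga i.2] at this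
    linarith [q.2.2.1, le_abs_self (sg i.2 * (lc (p i.1) (u i.1) (g z)).im)]
  filter_upwards [eventually_all.2 fun i : ι × Bool => shift1 h.good (h.h1 i.1)
      (fun t => sh1 h.h1 t i) (lim i) (h.tr i.1 i.2).1 (h.tr i.1 i.2).2,
    eventually_all.2 fun v => shift2 h.good (h.h1 v),
    eventually_all.2 fun i : ι × Bool => (tendsto_iff_norm_sub_tendsto_zero.1
      ((h.good.an _ (mem_closedBall_zero_iff.2 (h.h1 i.1).le)).continuousAt.tendsto.comp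
      (lim i))).eventually (gt_mem_nhds ε0)] with t e1 e2 e3
  simp only [Function.comp, ← hp] at e3
  have S1 : ∀ i, ∀ s ∈ Icc (0 : ℝ) 1, Q p u i
      (g (sh ζ t i) + s * (τ * (1 + sg i.2 * I) * u i.1)) (-ε) (τ + ε) (-ε) (τ + ε) :=
    fun i s hs => by
      have := mul_nonneg hs.1 τ1.le
      have := mul_le_of_le_one_left τ1.le hs.2
      exact (Q.of hu (s * τ) (s * τ) (r := ε) ((e3 i).trans_eq' (by
        congr 1; simp only [nu]; push_cast; ring))).mono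
  have S0 : ∀ i (s : ℝ), Q p u i (g (sh ζ t i) + τ * (1 + sg i.2 * I) * u i.1 +
      s * (L * nu u i)) (τ - ε) (τ + ε) (τ + s * L - ε) (τ + s * L + ε) := fun i s =>
    Q.of hu τ (τ + s * L) ((e3 i).trans_eq' (by congr 1; simp only [nu]; push_cast; ring))
  have S1' : ∀ i, ∀ s ∈ Icc (0 : ℝ) 1, Q p u i (g (sh ζ t i) +
      τ * (1 + sg i.2 * I) * u i.1 + s * (L * nu u i)) (τ - ε) (τ + ε) (τ - ε) (τ + L + ε) :=
    fun i s hs => by
      have := mul_nonneg hs.1 L0.le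
      have := mul_le_of_le_one_left L0.le hs.2
      exact (S0 i s).mono
  have A1 : ∀ i j : ι × Bool, i ≠ j → ∀ s ∈ Icc (0 : ℝ) 1, ∀ s' ∈ Icc (0 : ℝ) 1,
      g (sh ζ t i) + s * (τ * (1 + sg i.2 * I) * u i.1) ≠
        g (sh ζ t j) + s' * (τ * (1 + sg j.2 * I) * u j.1) := fun i j ne s hs s' hs' e => by
    have q := S1 i s hs
    rw [e] at q
    have := Q.same hd q.mono (S1 _ s' hs').mono
    obtain ⟨v, k⟩ := i
    obtain ⟨v', k'⟩ := j
    obtain rfl : v = v' := this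
    have := fun s t' => sib (s := s) (t := t') (e2 v) (h.tr v true).1 (h.tr v false).1
    cases k <;> cases k'
    · exact ne rfl
    · exact this s' s hs'.1 hs.1 (by simpa [sh, sg] using e.symm)
    · exact this s s' hs.1 hs'.1 (by simpa [sh, sg] using e)
    · exact ne rfl
  have A2 : ∀ i : ι × Bool, 0 < (L * nu u i * conj (τ * (1 + sg i.2 * I) * u i.1)).re := fun i => by
    rw [show L * nu u i * conj (τ * (1 + sg i.2 * I) * u i.1) =
      (L * τ : ℝ) * (1 + sg i.2 * I) by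
        have : (sg i.2 : ℂ) * sg i.2 = 1 := by rw [← ofReal_mul, sg2, ofReal_one]
        simp only [nu, map_mul, map_add, conj_ofReal, conj_I, map_one, ofReal_mul]
        linear_combination (L * τ * (sg i.2 * I - sg i.2 * sg i.2 * (I * I))) * cc (hu i.1) -
          L * τ * sg i.2 * sg i.2 * I_mul_I + L * τ * this, re_ofReal_mul]
    simpa using mul_pos L0 τ1
  have A3 : ∀ i : ι × Bool, ∀ s ∈ Icc (0 : ℝ) 1, ∀ z ∈ D, g z ≠ g (sh ζ t i) +
      τ * (1 + sg i.2 * I) * u i.1 + s * (L * nu u i) := fun i s hs z hz e =>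
    st i z hz (by rw [e]; exact (S1' i s hs).mono)
  have A4 : ∀ i : ι × Bool, ∀ s ∈ Icc (0 : ℝ) 1, ∀ j ≠ i, ∀ s' ∈ Icc (0 : ℝ) 1,
      g (sh ζ t j) + s' * (τ * (1 + sg j.2 * I) * u j.1) ≠ g (sh ζ t i) +
      τ * (1 + sg i.2 * I) * u i.1 + s * (L * nu u i) := fun i s hs j ne s' hs' e =>
    Q.sepA hd ne (y0 := -ε) (y2 := τ - ε) (S1 j s' hs').mono (by rw [e]; exact (S1' i s hs).mono)
  have SP := spike (ζ := sh ζ t) (d := fun i : ι × Bool => τ * (1 + sg i.2 * I) * u i.1) (κ := Unit)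
    (e := fun (i : ι × Bool) _ => (L : ℂ) * nu u i) h.good (sh1 h.h1 t) (fun i => (e1 i).1) (fun i => (e1 i).2)
    A1 (fun i _ => A2 i) (fun i _ => A3 i) (fun i _ => A4 i) ε0
  refine SP.mono fun T ⟨f1, f2, f3, f4⟩ => ?_
  clear SP
  generalize G g (sh ζ t) (fun i => τ * (1 + sg i.2 * I) * u i.1) T = g1 at *
  have S2 : ∀ i, ∀ s ∈ Icc (0 : ℝ) 1, Q p u i (g1 (sh ζ t i) + s * (L * nu u i))
      (τ - ε - ε) (τ + ε + ε) (τ - ε - ε) (τ + L + ε + ε) := fun i s hs =>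
    (S1' i s hs).lip hu ((f3 i).trans_eq' (by congr 1; ring))
  have S3 : ∀ i, Q p u i (g1 (sh ζ t i) + L * nu u i)
      (τ - ε - ε) (τ + ε + ε) (τ + 1 * L - ε - ε) (τ + 1 * L + ε + ε) := fun i =>
    (S0 i 1).lip hu ((f3 i).trans_eq' (by congr 1; push_cast; ring))
  have K1 : ∀ i w, Q p u i w (τ - 3 * ε - b') (τ + 3 * ε + b')
      (τ + L - 3 * ε - a') (τ + L + 3 * ε + a') → ∀ z ∈ D, ¬ ‖w - g1 z‖ < ε := fun i w q z hz e => by
    rw [norm_sub_rev] at e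
    rcases f4 z hz with ⟨y, hy, e'⟩ | ⟨j, s, hs, e'⟩ <;> rw [norm_sub_rev] at e'
    · exact st i y hy ((q.lip hu e).lip hu e').mono
    · exact Q.sepB hd (y0 := 2 * τ) ((q.lip hu e).lip hu e').mono (S1 j s hs).mono
  have S4 : ∀ i k, ∀ s ∈ Icc (0 : ℝ) 1, Q p u i (g1 (sh ζ t i) + L * nu u i +
      s * (τ' * (1 + sg k * I) * nu u i)) (τ - 3 * ε - b') (τ + 3 * ε + b')
      (τ + L - 3 * ε - a') (τ + L + 3 * ε + a') := fun i k s hs =>
    ((S3 i).lip hu (r := 2 * τ' + ε) (by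
      rw [add_sub_cancel_left]; linarith [dg τ0 (nu1 hu i) k hs])).mono
  filter_upwards [spike (ζ := sh ζ t) (d := fun i : ι × Bool => (L : ℂ) * nu u i)
    (e := fun (i : ι × Bool) (k : Bool) => τ' * (1 + sg k * I) * nu u i)
    f1 (sh1 h.h1 t) (fun i => (f2 i ()).1) (fun i => (f2 i ()).2)
    (fun i j ne s hs s' hs' e => Q.sepA hd ne (y0 := 0) (y2 := 0) (S2 i s hs).mono
      (by rw [e]; exact (S2 j s' hs').mono))
    (fun i k => by
      rw [show τ' * (1 + sg k * I) * nu u i * conj (L * nu u i) = (L * τ' : ℝ) * (1 + sg k * I) by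
        rw [map_mul, conj_ofReal, ofReal_mul]
        linear_combination (L * τ' * (1 + sg k * I)) * cc (nu1 hu i), re_ofReal_mul]
      simpa using mul_pos L0 τ0)
    (fun i k s hs z hz e => K1 i _ (S4 i k s hs) z hz (by rw [e]; simpa using ε0))
    (fun i k s hs j ne s' hs' e => Q.sepA hd ne (y0 := 0) (y2 := 0) (S2 j s' hs').mono
      (by rw [e]; exact (S4 i k s hs).mono)) ε0] with T' ⟨g1', g2', g3, g4⟩
  generalize G g1 (sh ζ t) (fun i => L * nu u i) T' = g2 at *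
  have S5 : ∀ i w, In (g2 (sh ζ t i)) (nu u i) a' b' w → Q p u i w
      (τ - 3 * ε - b') (τ + 3 * ε + b') (τ + L - 3 * ε - a') (τ + L + 3 * ε + a') := fun i w q =>
    (((S3 i).lip hu (g3 i)).child q).mono
  refine ⟨sh1 h.h1 t, nu1 hu, g1', g2', fun i j w q q' => ?_, fun i z hz q => ?_⟩
  · by_contra ne
    exact Q.sepA hd ne (y0 := 0) (y2 := 0) (S5 i w q).mono (S5 j w q').mono
  · rcases g4 z hz with ⟨y, hy, e⟩ | ⟨j, s, hs, e⟩
    · exact (K1 i _ (S5 i _ q) y hy e).elim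
    rcases eq_or_ne i j with rfl | ne
    · obtain ⟨b1, b2⟩ := lcb (p := g2 (sh ζ t i)) (w := g2 z) (c := ((s - 1) * L : ℝ)) (r := ε + ε)
        (nu1 hu i) (((norm_sub_le _ _).trans_lt (add_lt_add e (g3 i))).trans_eq' (by
          congr 1; push_cast; ring))
      rw [ofReal_re, abs_lt] at b1
      rw [ofReal_im, sub_zero] at b2
      exact ⟨by linarith, by nlinarith [hs.2]⟩
    · rw [norm_sub_rev] at e
      exact (Q.sepA hd ne (y0 := 0) (y2 := 0) ((S5 i _ q).lip hu e).mono (S2 j s hs).mono).elim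

end Pool.Agent.H.MP_cf5e8f_an
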