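import Pool.Agent.H.MP_cf5e8f_an.D

set_option autoImplicit false
open Set Filter Metric Complex Topology ComplexConjugate

namespace Pool.Agent.H.MP_cf5e8f_an

def nb (A B : ℕ → ℂ) (c : ℝ) : Prop := ∀ N, ∑ n ∈ Finset.range N, ‖A n - B n‖ ≤ c

noncomputable def Fo {ι : Type} [Fintype ι] (ζ u : ι → ℂ) (n : ℕ) : ℝ :=
  ‖∑ v, u v * conj (ζ v) ^ n‖

def St (j : ℕ) (a b τ : ℝ) (A : ℕ → ℂ) : Prop :=
  ∃ (ι : Type) (_ : Fintype ι) (g : ℂ → ℂ) (ζ u : ι → ℂ) (H : ℕ), Fintype.card ι = 2 ^ j ∧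
    Geo g ζ u a b τ ∧ (∀ z ∈ D, HasSum (fun n => A n * z ^ n) (g z)) ∧ A 0 = 0 ∧ 0 < H ∧
    (∀ n, Fo ζ u (n + H) = Fo ζ u n) ∧ ∀ n, ∑ k ∈ Finset.range H, Fo ζ u (n + k) ≤ H * (4 / 3) ^ j

variable {ι : Type} [Fintype ι]

lemma Fo_sh (ζ u : ι → ℂ) (t : ℝ) (n : ℕ) :
    Fo (sh ζ t) (nu u) n = 2 * |Real.sin (n * t)| * Fo ζ u n := by
  rw [Fo, Fo, Fintype.sum_prod_type, Finset.sum_congr rfl
    (g := fun v => 2 * sin (n * t) * (u v * conj (ζ v) ^ n)) fun v _ => by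
      simp only [Fintype.sum_bool, sh, nu, sg, cond, map_mul, mul_pow, ← exp_conj, ← exp_nat_mul,
        conj_ofReal, conj_I, two_sin, ofReal_one, ofReal_neg]
      ring_nf, ← Finset.mul_sum, norm_mul, norm_mul, ← ofReal_natCast, ← ofReal_mul, ← ofReal_sin,
    norm_real, Real.norm_eq_abs, norm_ofNat]

lemma G_ser {g : ℂ → ℂ} {ζ : ι → ℂ} (d : ι → ℂ) (h1 : ∀ i, ‖ζ i‖ = 1) {T : ℝ} (hT : 0 < T)
    {A : ℕ → ℂ} (h : ∀ z ∈ D, HasSum (fun n => A n * z ^ n) (g z)) : ∀ z ∈ D, HasSum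
      (fun n => (A n + co T n * ∑ i, d i * conj (ζ i) ^ n) * z ^ n) (G g ζ d T z) := fun z hz => by
  have := (h z hz).add (hasSum_sum (s := Finset.univ) fun i _ =>
    (co_ser hT (cz (h1 i).le hz)).mul_left (d i))
  rwa [show (fun n => (A n + co T n * ∑ i, d i * conj (ζ i) ^ n) * z ^ n) = fun n => A n * z ^ n +
    ∑ i, d i * (co T n * (conj (ζ i) * z) ^ n) by
      ext n
      rw [add_mul, Finset.mul_sum, Finset.sum_mul]
      congr 1
      exact Finset.sum_congr rfl fun i _ => by ring]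

theorem step {j : ℕ} {a b τ a' b' τ' : ℝ} {A : ℕ → ℂ} (h : St j a b τ A)
    (τ0 : 0 < τ') (c1 : τ' ≤ τ) (c2 : 2 * τ' ≤ a') (c3 : 2 * τ' ≤ b') (c4 : b' + 2 * τ ≤ a)
    (c5 : 2 * a' + 5 * τ ≤ b) : ∃ A', St (j + 1) a' b' τ' A' ∧
      nb A' A (2 ^ (j + 1) * (2 * τ) + (a' + 3 * τ) * (2 * ((4 / 3) ^ j * (4 / 3)))) := by
  obtain ⟨ι, _, g, ζ, u, H, h1, h2, h3, h4, h5, h6, h7⟩ := h
  have H0 : (0 : ℝ) < H := Nat.cast_pos.2 h5
  have lim : Tendsto (fun m : ℕ => Real.pi / 3 / (m * H : ℕ)) atTop (𝓝[>] 0) := by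
    refine tendsto_nhdsWithin_iff.2 ⟨tendsto_const_nhds.div_atTop
      (tendsto_natCast_atTop_atTop.comp (tendsto_id.atTop_mul_const' h5)), ?_⟩
    filter_upwards [eventually_gt_atTop 0] with m hm
    have := Real.pi_pos
    rw [mem_Ioi]
    positivity
  obtain ⟨m, e1, m0⟩ := ((lim.eventually (geo_step h2 τ0 c1 c2 c3 c4 c5)).and
    (eventually_gt_atTop 0)).exists
  obtain ⟨T, e2, T0⟩ := (e1.and (eventually_gt_atTop 0)).exists
  obtain ⟨T', e3, T1⟩ := (e2.and (eventually_ge_atTop ((3 * (m * H) : ℕ) : ℝ))).exists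
  have p0 : 0 < 3 * (m * H) := by positivity
  have T2 : 0 < T' := (Nat.cast_pos.2 p0).trans_le T1
  obtain ⟨p1, p2⟩ := per (F := Fo ζ u) (m := m) (t := Real.pi / 3 / (m * H : ℕ))
    (fun n => norm_nonneg _) h6 h7
    (mul_div_cancel₀ _ (by positivity))
  generalize Real.pi / 3 / (m * H : ℕ) = t at *
  simp only [← Fo_sh] at p1 p2
  have τ1 : 0 < τ := by linarith
  have L0 : 0 ≤ a' + 3 * τ := by linarith
  refine ⟨_, ⟨ι × Bool, inferInstance, _, _, _, 3 * (m * H), by simp [h1, pow_succ], e3,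
    G_ser _ e3.h1 T2 (G_ser _ e3.h1 T0 h3), by simp [h4, co], p0, p1, pow_succ (4 / 3 : ℝ) j ▸ p2⟩,
    fun N => ?_⟩
  refine (Finset.sum_le_sum (g := fun n => co T n * (2 ^ (j + 1) * (2 * τ)) +
    (a' + 3 * τ) * (co T' n * Fo (sh ζ t) (nu u) n)) fun n _ => ?_).trans ?_
  · rw [add_assoc, add_sub_cancel_left]
    refine (norm_add_le _ _).trans (add_le_add ?_ (le_of_eq ?_))
    · rw [norm_mul, norm_real, Real.norm_of_nonneg (co0 T0 n)]
      refine mul_le_mul_of_nonneg_left ((norm_sum_le_of_le _ (n := fun _ => 2 * τ)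
        fun i _ => ?_).trans_eq (by simp [h1, pow_succ])) (co0 T0 n)
      rw [norm_mul, norm_pow, RCLike.norm_conj, e3.h1, one_pow, mul_one]
      simpa using dg τ1 (h2.hu i.1) i.2 (right_mem_Icc.2 zero_le_one)
    · simp only [mul_assoc, ← Finset.mul_sum]
      rw [norm_mul, norm_mul, norm_real, norm_real, Real.norm_of_nonneg (co0 T2 n),
        Real.norm_of_nonneg L0, Fo, mul_left_comm]
  · rw [Finset.sum_add_distrib, ← Finset.sum_mul, ← Finset.mul_sum]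
    exact add_le_add (mul_le_of_le_one_left (by positivity) (co_le T0 N))
      (mul_le_mul_of_nonneg_left (wt (F := Fo (sh ζ t) (nu u)) p0 T1 (fun _ => norm_nonneg _) p2 (by positivity) N) L0)

theorem init (a b : ℝ) : St 0 a b (1 / 20) fun n => if n = 1 then 1 / 200 else 0 := by
  refine ⟨Unit, inferInstance, fun z => 1 / 200 * z, fun _ => 1, fun _ => 1, 1, by simp,
    ⟨by simp, by simp, ⟨fun z _ => by fun_prop, fun x _ y _ e => by simpa using e,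
      fun z _ => by simp⟩, fun _ s => ⟨by simp [Tr], fun z hz s hs e => ?_⟩,
      fun _ _ _ _ _ => rfl, fun _ z hz _ => ?_⟩, fun z _ => ?_, by simp, one_pos, by simp [Fo],
      by simp [Fo]⟩
  · have a := congrArg re e
    have b := (re_le_norm z).trans (mem_closedBall_zero_iff.1 hz)
    simp at a
    linarith [hs.1]
  · have a := (abs_im_le_norm z).trans (mem_closedBall_zero_iff.1 hz)
    have b := (re_le_norm z).trans (mem_closedBall_zero_iff.1 hz)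
    simp [lc]
    exact ⟨by linarith, by linarith⟩
  · convert hasSum_single (f := fun n => (if n = 1 then 1 / 200 else 0 : ℂ) * z ^ n) 1
      (fun n hn => by simp [hn]) using 1
    rw [if_pos rfl, pow_one]

theorem seq : ∃ (ρ : ℝ) (A : ℕ → ℕ → ℂ), 0 < ρ ∧ ρ * (4 / 3) < 1 ∧ ρ * ρ = 1 / 2 ∧ ∀ j,
    St j (ρ * ρ ^ j * (1 + (1 / 2) ^ j)) (ρ ^ j * (1 + (1 / 2) ^ j)) (ρ ^ j * (1 / 2) ^ j / 20) (A j) ∧
      nb (A (j + 1)) (A j) (3 * (ρ * (4 / 3)) ^ j) := by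
  obtain ⟨ρ, ρ0, ρ2⟩ : ∃ ρ : ℝ, 0 ≤ ρ ∧ ρ * ρ = 1 / 2 :=
    ⟨√(1 / 2), Real.sqrt_nonneg _, Real.mul_self_sqrt (by norm_num)⟩
  have r1 : 7 / 10 < ρ := by nlinarith
  have r2 : ρ < 71 / 100 := by nlinarith
  have S : ∀ j A, St j (ρ * ρ ^ j * (1 + (1 / 2) ^ j)) (ρ ^ j * (1 + (1 / 2) ^ j))
      (ρ ^ j * (1 / 2) ^ j / 20) A → ∃ A', St (j + 1) (ρ * ρ ^ (j + 1) * (1 + (1 / 2) ^ (j + 1)))
      (ρ ^ (j + 1) * (1 + (1 / 2) ^ (j + 1))) (ρ ^ (j + 1) * (1 / 2) ^ (j + 1) / 20) A' ∧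
      nb A' A (3 * (ρ * (4 / 3)) ^ j) := fun j A h => by
    have x0 : 0 < ρ ^ j := pow_pos (by linarith) j
    have y0 : (0 : ℝ) < (1 / 2) ^ j := by positivity
    have y1 : (1 / 2 : ℝ) ^ j ≤ 1 := pow_le_one₀ (by norm_num) (by norm_num)
    have y2 : (2 : ℝ) ^ j * (1 / 2) ^ j = 1 := by rw [← mul_pow]; norm_num
    have z1 : (1 : ℝ) ≤ (4 / 3) ^ j := one_le_pow₀ (by norm_num)
    simp only [pow_succ ρ, pow_succ (1 / 2 : ℝ), mul_pow]
    generalize ρ ^ j = x at *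
    generalize (1 / 2 : ℝ) ^ j = y at *
    rw [show ρ * (x * ρ) = x / 2 by linear_combination x * ρ2]
    have xy := mul_pos x0 y0
    have xy1 := mul_le_of_le_one_right x0.le y1
    have := mul_lt_mul_of_pos_left r1 xy
    have := mul_lt_mul_of_pos_left r2 xy
    have := mul_lt_mul_of_pos_left r1 x0
    obtain ⟨A', h1, h2⟩ := step (a' := x / 2 * (1 + y * (1 / 2))) (b' := x * ρ * (1 + y * (1 / 2)))
      (τ' := x * ρ * (y * (1 / 2)) / 20) h (by linarith) (by linarith) (by linarith) (by linarith)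
      (by linarith) (by linarith)
    refine ⟨A', h1, fun N => (h2 N).trans ?_⟩
    rw [pow_succ]
    generalize (4 / 3 : ℝ) ^ j = z at *
    have := mul_le_mul_of_nonneg_right xy1 (zero_le_one.trans z1)
    have := mul_le_mul_of_nonneg_left z1 x0.le
    have : 2 ^ j * (x * y) = x := by linear_combination x * y2
    linarith
  choose! f hf using S
  obtain ⟨A, A0, A1⟩ : ∃ A : ℕ → ℕ → ℂ, A 0 = (fun n => if n = 1 then 1 / 200 else 0) ∧
      ∀ j, A (j + 1) = f j (A j) := 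
    ⟨fun j => Nat.rec (fun n => if n = 1 then 1 / 200 else 0) f j, rfl, fun _ => rfl⟩
  have I : ∀ j, St j (ρ * ρ ^ j * (1 + (1 / 2) ^ j)) (ρ ^ j * (1 + (1 / 2) ^ j))
      (ρ ^ j * (1 / 2) ^ j / 20) (A j) := fun j => by
    induction j with
    | zero => rw [A0]; simpa using init _ _
    | succ j ih => exact A1 j ▸ (hf j _ ih).1
  exact ⟨ρ, A, by linarith, by linarith, ρ2, fun j => ⟨I j, A1 j ▸ (hf j _ (I j)).2⟩⟩

end Pool.Agent.H.MP_cf5e8f_an
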