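import Pool.Agent.H.MP_cf5e8f_an.E
import Pool.Agent.Lib.helper9.RMT

set_option autoImplicit false
open Set Filter Metric Complex Topology ComplexConjugate MeasureTheory

namespace Pool.Agent.H.MP_cf5e8f_an

lemma vol_In (p : ℂ) {u : ℂ} (hu : ‖u‖ = 1) (a b : ℝ) :
    volume {w | In p u a b w} = ENNReal.ofReal (2 * a) * ENNReal.ofReal (2 * b) := by
  have hc : ‖conj u‖ = 1 := by rw [RCLike.norm_conj, hu]
  have r : ∀ S : Set ℂ, volume ((fun w => conj u * w) ⁻¹' S) = volume S := fun S =>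
    ((rotation ⟨conj u, mem_sphere_zero_iff_norm.2 hc⟩).measurePreserving).measure_preimage_equiv
      (f := (rotation ⟨conj u, mem_sphere_zero_iff_norm.2 hc⟩).toHomeomorph.toMeasurableEquiv) S
  rw [show {w | In p u a b w} = (fun w => w + -p) ⁻¹' ((fun w => conj u * w) ⁻¹'
    (measurableEquivRealProd ⁻¹' (Ioo (-a) a ×ˢ Ioo (-b) b))) by
      ext w
      simp only [In, lc, abs_lt, mem_ofPred_eq, mem_preimage, measurableEquivRealProd_apply, mem_prod,
        mem_Ioo, mul_comm (conj u), ← sub_eq_add_neg], measure_preimage_add_right, r,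
    volume_preserving_equiv_real_prod.measure_preimage_equiv, Measure.volume_eq_prod,
    Measure.prod_prod, Real.volume_Ioo, Real.volume_Ioo, sub_neg_eq_add, sub_neg_eq_add, two_mul,
    two_mul]

lemma In.dist {p u w : ℂ} {a b : ℝ} (h : In p u a b w) (hu : ‖u‖ = 1) : ‖w - p‖ ≤ a + b := by
  have := norm_le_abs_re_add_abs_im (lc p u w)
  rw [lc, norm_mul, RCLike.norm_conj, hu, mul_one, ← lc] at this
  linarith [h.1, h.2]

lemma big {j : ℕ} {a b τ c : ℝ} {A : ℕ → ℂ} (h : St j a b τ A) (a0 : 0 ≤ a) {f : ℂ → ℂ}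
    (hf : ∀ z ∈ D, ‖∑' n, A n * z ^ n - f z‖ ≤ c) :
    ENNReal.ofReal (2 ^ j * (2 * a * (2 * b))) ≤ volume (cthickening (a + b + c) (f '' sphere 0 1)) := by
  obtain ⟨ι, _, g, ζ, u, H, h1, h2, h3, -⟩ := h
  have e := measure_iUnion (μ := volume) (f := fun v => {w | In (g (ζ v)) (u v) a b w})
    (fun v v' ne => disjoint_left.2 fun w q q' => ne (h2.dis v v' w q q'))
    fun v => IsOpen.measurableSet (by
      unfold In lc
      exact (isOpen_lt (by fun_prop) continuous_const).and (isOpen_lt (by fun_prop) continuous_const))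
  simp only [vol_In _ (h2.hu _), tsum_fintype, Finset.sum_const, Finset.card_univ, h1,
    nsmul_eq_mul] at e
  rw [ENNReal.ofReal_mul (by positivity), ENNReal.ofReal_mul (by positivity),
    ← Nat.cast_ofNat (n := 2), ← Nat.cast_pow, ENNReal.ofReal_natCast, Nat.cast_ofNat, ← e]
  refine measure_mono (iUnion_subset fun v w q => mem_cthickening_of_dist_le w (f (ζ v)) _ _
    ⟨_, mem_sphere_zero_iff_norm.2 (h2.h1 v), rfl⟩ ?_)
  have m : ζ v ∈ D := mem_closedBall_zero_iff.2 (h2.h1 v).le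
  have := hf _ m
  rw [(h3 _ m).tsum_eq] at this
  rw [dist_eq_norm]
  linarith [In.dist q (h2.hu v), norm_sub_le_norm_sub_add_norm_sub w (g (ζ v)) (f (ζ v))]

lemma lim {A : ℕ → ℕ → ℂ} {q : ℝ} (q0 : 0 ≤ q) (q1 : q < 1)
    (h : ∀ j, nb (A (j + 1)) (A j) (3 * q ^ j)) :
    ∃ a : ℕ → ℂ, (∀ n, Tendsto (fun j => A j n) atTop (𝓝 (a n))) ∧
      ∀ j, nb (A j) a (3 / (1 - q) * q ^ j) := by
  have c : ∀ n, CauchySeq fun j => A j n := fun n => cauchySeq_of_le_geometric q 3 q1 fun j => by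
    rw [dist_comm, dist_eq_norm]
    exact (Finset.single_le_sum (f := fun n => ‖A (j + 1) n - A j n‖) (fun _ _ => norm_nonneg _)
      (Finset.self_mem_range_succ n)).trans (h j _)
  choose a ha using fun n => cauchySeq_tendsto_of_complete (c n)
  have q2 : 0 < 1 - q := by linarith
  refine ⟨a, ha, fun j N => le_of_tendsto' (tendsto_finsetSum _ fun n _ =>
    (((ha n).comp (tendsto_add_atTop_nat j)).const_sub (A j n)).norm) fun k => ?_⟩
  refine le_trans (b := 3 / (1 - q) * q ^ j - 3 / (1 - q) * q ^ (k + j)) ?_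
    (sub_le_self _ (by positivity))
  induction k with
  | zero => simp
  | succ k ih =>
    have := h (k + j) N
    refine (Finset.sum_le_sum fun n _ => norm_sub_le_norm_sub_add_norm_sub _ (A (k + j) n) _).trans ?_
    simp only [Function.comp, Finset.sum_add_distrib, add_right_comm k 1 j,
      norm_sub_rev (A (k + j) _)] at ih ⊢
    refine (add_le_add ih this).trans_eq ?_
    field_simp
    ring

theorem pre : ∃ a : ℕ → ℂ, Summable (fun n => ‖a n‖) ∧ a 0 = 0 ∧ a 1 ≠ 0 ∧
    InjOn (fun z : ℂ => ∑' n, a n * z ^ n) (ball 0 1) ∧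
      0 < volume ((fun z : ℂ => ∑' n, a n * z ^ n) '' sphere 0 1) := by
  obtain ⟨ρ, A, ρ0, ρ1, ρ2, h⟩ := seq
  obtain ⟨a, a1, a2⟩ := lim (by positivity) ρ1 fun j => (h j).2
  have S := fun j => (h j).1
  obtain ⟨c, hc⟩ : ∃ c : ℕ → ℝ, ∀ j, c j = 3 / (1 - ρ * (4 / 3)) * (ρ * (4 / 3)) ^ j :=
    ⟨_, fun _ => rfl⟩
  have c0 : Tendsto c atTop (𝓝 0) := by
    rw [funext hc]
    simpa using (tendsto_pow_atTop_nhds_zero_of_lt_one (by positivity) ρ1).const_mul _
  simp only [← hc] at a2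
  have b : ∀ (B : ℕ → ℂ) n, ∀ z ∈ D, ‖B n * z ^ n‖ ≤ ‖B n‖ := fun B n z hz => by
    rw [norm_mul, norm_pow]
    exact mul_le_of_le_one_right (norm_nonneg _)
      (pow_le_one₀ (norm_nonneg _) (mem_closedBall_zero_iff.1 hz))
  have s1 := fun j => summable_of_sum_range_le (fun _ => norm_nonneg _) (a2 j)
  have s2 : ∀ j, Summable fun n => ‖A j n‖ := fun j => by
    obtain ⟨ι, _, g, ζ, u, H, -, -, h3, -⟩ := S j
    simpa using (h3 1 (by simp)).summable.norm
  have s3 : Summable fun n => ‖a n‖ := by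
    simpa using ((s2 0).of_norm.sub (s1 0).of_norm).norm
  obtain ⟨f, hf⟩ : ∃ f : ℂ → ℂ, f = fun z => ∑' n, a n * z ^ n := ⟨_, rfl⟩
  have u1 : ∀ j, ∀ z ∈ D, ‖∑' n, A j n * z ^ n - f z‖ ≤ c j := fun j z hz => by
    rw [hf, ← ((s2 j).of_norm_bounded (b _ · z hz)).tsum_sub (s3.of_norm_bounded (b _ · z hz))]
    simp only [← sub_mul]
    exact (tsum_of_norm_bounded (s1 j).hasSum (b (fun n => A j n - a n) · z hz)).trans
      (Real.tsum_le_of_sum_range_le (fun _ => norm_nonneg _) (a2 j))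
  have cf : ContinuousOn f D := hf ▸ continuousOn_tsum (fun n => by fun_prop) s3 (b a)
  have v : 0 < volume (f '' sphere 0 1) := by
    have r1 : ρ < 1 := by linarith
    have t0 := tendsto_pow_atTop_nhds_zero_of_lt_one ρ0.le r1
    have t1 := (tendsto_pow_atTop_nhds_zero_of_lt_one (r := (1 / 2 : ℝ)) (by norm_num)
      (by norm_num)).const_add 1
    have t := (((t0.const_mul ρ).mul t1).add (t0.mul t1)).add c0
    simp only [mul_zero, zero_mul, add_zero] at t
    refine (ENNReal.ofReal_pos.2 ρ0).trans_le (ge_of_tendsto'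
      ((tendsto_measure_cthickening_of_isCompact ((isCompact_sphere 0 1).image_of_continuousOn
      (cf.mono sphere_subset_closedBall))).comp t) fun j =>
      le_trans (ENNReal.ofReal_le_ofReal ?_) (big (S j) (by positivity) (u1 j)))
    have e : 2 ^ j * (ρ ^ j * ρ ^ j) = 1 := by rw [← mul_pow, ← mul_pow, ρ2]; norm_num
    have y0 : (0 : ℝ) < (1 / 2) ^ j := by positivity
    rw [show 2 ^ j * (2 * (ρ * ρ ^ j * (1 + (1 / 2) ^ j)) * (2 * (ρ ^ j * (1 + (1 / 2) ^ j)))) =
      ρ * (4 * (1 + (1 / 2) ^ j) ^ 2) by linear_combination ρ * (4 * (1 + (1 / 2) ^ j) ^ 2) * e]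
    exact le_mul_of_one_le_right ρ0.le (by nlinarith)
  have a0 : ∀ j, A j 0 = 0 := fun j => by
    obtain ⟨ι, _, g, ζ, u, H, -, -, -, h4, -⟩ := S j
    exact h4
  choose g g1 g2 using fun j : ℕ => show ∃ g, Good g ∧ ∀ z ∈ D, ∑' n, A j n * z ^ n = g z by
    obtain ⟨ι, _, g, ζ, u, H, -, h2, h3, -⟩ := S j
    exact ⟨g, h2.good, fun z hz => (h3 z hz).tsum_eq⟩
  have dg : ∀ j, DifferentiableOn ℂ (g j) (ball 0 1) := fun j =>
    ((g1 j).an.mono ball_subset_closedBall).differentiableOn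
  have hψ : TendstoLocallyUniformlyOn g f atTop (ball 0 1) := by
    refine (Metric.tendstoUniformlyOn_iff.2 fun ε hε => ?_).tendstoLocallyUniformlyOn
    filter_upwards [c0.eventually (gt_mem_nhds hε)] with j hj z hz
    rw [dist_comm, dist_eq_norm, ← g2 j z (ball_subset_closedBall hz)]
    exact (u1 j z (ball_subset_closedBall hz)).trans_lt hj
  have hd := hψ.differentiableOn (Eventually.of_forall dg) isOpen_ball
  have m0 : (0 : ℂ) ∈ ball (0 : ℂ) 1 := mem_ball_self one_pos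
  have d1 : deriv f 0 = a 1 := by
    have := hasSum_deriv_of_summable_norm (F := fun n z => a n * z ^ n) s3 (fun n => by fun_prop)
      isOpen_ball (fun n w hw => b a n w (ball_subset_closedBall hw)) m0
    rw [hf, ← this.tsum_eq, tsum_eq_single 1 fun n hn => by
      rcases n with _ | _ | n <;> simp at hn ⊢]
    simp
  have n1 : a 1 ≠ 0 := fun e => by
    have h1 := Pool.Agent.Lib.helper9.RMT.hurwitz isOpen_ball (convex_ball 0 1).isPreconnected
      (fun j => (dg j).deriv isOpen_ball) (fun j z hz => (g1 j).nz z (ball_subset_closedBall hz))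
      (hψ.deriv (Eventually.of_forall dg) isOpen_ball) m0 (d1.trans e)
    have h2 : EqOn f (fun _ => f 0) (ball 0 1) := fun z hz =>
      isOpen_ball.is_const_of_deriv_eq_zero (convex_ball 0 1).isPreconnected hd h1 hz m0
    have h3 := h2.of_subset_closure cf continuousOn_const ball_subset_closedBall
      (closure_ball (0 : ℂ) one_ne_zero).ge
    refine v.ne' (measure_mono_null (t := {f 0}) ?_ (measure_singleton _))
    rintro _ ⟨z, hz, rfl⟩
    exact h3 (sphere_subset_closedBall hz)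
  refine ⟨a, s3, tendsto_nhds_unique (a1 0) (by simp [a0]), n1,
    ?_, hf ▸ v⟩
  rw [← hf]
  intro z hz w hw e
  by_contra hzw
  obtain ⟨r, hr, hb⟩ := Metric.isOpen_iff.1 (isOpen_ball.inter isOpen_ne) z ⟨hz, hzw⟩
  have h1 := Pool.Agent.Lib.helper9.RMT.hurwitz isOpen_ball (convex_ball z r).isPreconnected
    (g := fun k x => g k x - g k w) (ψ := fun x => f x - f w)
    (fun k => ((dg k).mono fun x hx => (hb hx).1).sub_const _)
    (fun k x hx e' => (hb hx).2 ((g1 k).inj (ball_subset_closedBall (hb hx).1)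
      (ball_subset_closedBall hw) (sub_eq_zero.1 e')))
    ((hψ.mono fun x hx => (hb hx).1).sub
      ((hψ.tendsto_at hw).tendstoUniformlyOn_const _).tendstoLocallyUniformlyOn)
    (mem_ball_self hr) (sub_eq_zero.2 e)
  have h2 := ((hd.sub_const (f w)).analyticOnNhd
    isOpen_ball).eqOn_zero_of_preconnected_of_eventuallyEq_zero
    (convex_ball 0 1).isPreconnected hz (h1.eventuallyEq_of_mem (ball_mem_nhds z hr))
  have h3 : f =ᶠ[𝓝 0] fun _ => f w :=
    (isOpen_ball.eventually_mem m0).mono fun x hx => sub_eq_zero.1 (h2 hx)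
  rw [h3.deriv_eq, deriv_const] at d1
  exact n1 d1.symm

theorem main : ∃ a : ℕ → ℂ, Summable (fun n => ‖a n‖) ∧ a 0 = 0 ∧ a 1 = 1 ∧
    InjOn (fun z : ℂ => ∑' n, a n * z ^ n) (ball 0 1) ∧
      0 < volume ((fun z : ℂ => ∑' n, a n * z ^ n) '' sphere 0 1) := by
  obtain ⟨a, h1, h2, h3, h4, h5⟩ := pre
  have e : ∀ z : ℂ, ∑' n, a n / a 1 * z ^ n = (∑' n, a n * z ^ n) / a 1 := fun z => by
    simp only [div_mul_eq_mul_div, tsum_div_const]
  refine ⟨fun n => a n / a 1, by simpa using h1.div_const _, by simp [h2], div_self h3,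
    fun z hz w hw q => h4 hz hw ?_, pos_iff_ne_zero.2 fun q => h5.ne' ?_⟩
  · simpa only [e, div_left_inj' h3] using q
  · have := addHaar_image_eq_zero_of_differentiableOn_of_addHaar_eq_zero volume
      (f := fun w : ℂ => w * a 1) (by fun_prop) q
    simpa only [image_image, e, div_mul_cancel₀ _ h3] using this

end Pool.Agent.H.MP_cf5e8f_an
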